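import Pool.Agent.Helper16.KAL.Defs

set_option autoImplicit false
set_option linter.unusedSectionVars false

/-!
# KAL-09: cutting into light blocks

Let `ω' i = min (ω i) σ`, `S i = ∑ j < i, ω' j` (for `i ≤ n`), `β i = S i / σ + S (i + 1) / σ` for `i < n`.
`β` is monotone and at most `2 * (S n / σ) ≤ t`. Let `c k = card {i : Fin n | β i ≤ k}` for `k < t`. As `β`
is monotone, `c k ≤ i ↔ k < β i`; so `blk c i = β i` (the number of `k < t` with `k < β i`).
Let `B = V.filter (blk c · = b)` have at least two elements, let `i` be the least and `j` the greatest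
element. Then `S i ≤ S (i + 1) ≤ S j ≤ S (j + 1)` and `β i = β j` give
`S i / σ = S (i+1) / σ = S j / σ = S (j+1) / σ`, so `S (j + 1) < S i + σ`, and
`∑ x ∈ B, ω' x ≤ S (j + 1) - S i < σ`. So `ω' x < σ`, that is `ω' x = ω x`, for all `x ∈ B`.
-/

namespace Pool.Agent.Helper16.KAL

open Finset

/-- Every monotone map to `{0..t}` is given by cuts. -/
theorem exists_cuts_of_mono {n t : ℕ} (β : Fin n → ℕ) (hβ : Monotone β) (ht : ∀ i, β i ≤ t) :
    ∃ c : Fin t → Fin (n + 1), ∀ i, ((blk c i : Fin (t + 1)) : ℕ) = β i := by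
  classical
  have hcard : ∀ k : ℕ, (univ.filter (fun i : Fin n => β i ≤ k)).card < n + 1 := by
    intro k
    have h := card_le_univ (univ.filter (fun i : Fin n => β i ≤ k))
    rw [Fintype.card_fin] at h
    omega
  refine ⟨fun k => ⟨(univ.filter (fun i : Fin n => β i ≤ k)).card, hcard k⟩, fun i => ?_⟩
  have hiff : ∀ k : ℕ, (univ.filter (fun i : Fin n => β i ≤ k)).card ≤ (i : ℕ) ↔ k < β i := by
    intro k
    constructor
    · intro h
      by_contra hk
      rw [not_lt] at hk
      have h1 : (univ.filter (fun x : Fin n => x ≤ i)) ⊆ univ.filter (fun x : Fin n => β x ≤ k) := by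
        intro x hx
        rw [mem_filter] at hx ⊢
        exact ⟨mem_univ _, (hβ hx.2).trans hk⟩
      have h2 := card_le_card h1
      have h3 : (univ.filter (fun x : Fin n => x ≤ i)).card = (i : ℕ) + 1 := by
        have h4 : univ.filter (fun x : Fin n => x ≤ i) = Finset.Iic i := by
          ext x
          simp
        rw [h4, Fin.card_Iic]
      omega
    · intro h
      have h1 : univ.filter (fun x : Fin n => β x ≤ k) ⊆ univ.filter (fun x : Fin n => x < i) := by
        intro x hx
        rw [mem_filter] at hx ⊢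
        refine ⟨mem_univ _, ?_⟩
        by_contra hxi
        rw [not_lt] at hxi
        have := hβ hxi
        omega
      have h2 := card_le_card h1
      have h3 : (univ.filter (fun x : Fin n => x < i)).card = (i : ℕ) := by
        have h4 : univ.filter (fun x : Fin n => x < i) = Finset.Iio i := by
          ext x
          simp
        rw [h4, Fin.card_Iio]
      omega
  show (univ.filter (fun k : Fin t =>
    ((⟨(univ.filter (fun i : Fin n => β i ≤ k)).card, hcard k⟩ : Fin (n + 1)) : ℕ) ≤ i)).card = β i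
  have h5 : univ.filter (fun k : Fin t =>
      ((⟨(univ.filter (fun i : Fin n => β i ≤ k)).card, hcard k⟩ : Fin (n + 1)) : ℕ) ≤ i) =
      univ.filter (fun k : Fin t => (k : ℕ) < β i) := by
    ext k
    simp only [mem_filter, mem_univ, true_and]
    exact hiff k
  rw [h5, Fin.card_filter_val_lt]
  exact min_eq_right (ht i)

theorem exists_cuts {n t : ℕ} (ω : Fin n → ℕ) (σ : ℕ) (hσ : 0 < σ)
    (ht : 2 * ((∑ i, min (ω i) σ) / σ) ≤ t) :
    ∃ c : Fin t → Fin (n + 1), ∀ (V : Finset (Fin n)) (b : Fin (t + 1)),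
      (V.filter (fun i => blk c i = b)).card ≤ 1 ∨
        ∑ i ∈ V.filter (fun i => blk c i = b), ω i < σ := by
  classical
  obtain ⟨S, hS⟩ : ∃ S : ℕ → ℕ, ∀ m, S m = ∑ j ∈ univ.filter (fun j : Fin n => (j : ℕ) < m),
    min (ω j) σ := ⟨_, fun _ => rfl⟩
  have hmono : Monotone S := by
    intro a b hab
    rw [hS, hS]
    apply sum_le_sum_of_subset
    intro x hx
    rw [mem_filter] at hx ⊢
    exact ⟨hx.1, by omega⟩
  have htot : ∀ m, S m ≤ ∑ i, min (ω i) σ := by
    intro m
    rw [hS]
    exact sum_le_sum_of_subset (filter_subset _ _)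
  have hdiv : ∀ {a b : ℕ}, a ≤ b → a / σ ≤ b / σ := fun h => Nat.div_le_div_right h
  obtain ⟨c, hc⟩ := exists_cuts_of_mono (n := n) (t := t)
    (fun i => S i / σ + S ((i : ℕ) + 1) / σ)
    (fun i j hij => Nat.add_le_add (hdiv (hmono (by exact_mod_cast hij)))
      (hdiv (hmono (by have : (i : ℕ) ≤ j := by exact_mod_cast hij
                       omega))))
    (fun i => by
      have h1 := hdiv (htot i)
      have h2 := hdiv (htot ((i : ℕ) + 1))
      show S i / σ + S ((i : ℕ) + 1) / σ ≤ t
      omega)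
  refine ⟨c, fun V b => ?_⟩
  by_cases hcard : (V.filter (fun i => blk c i = b)).card ≤ 1
  · exact Or.inl hcard
  right
  obtain ⟨B, hB⟩ : ∃ B, B = V.filter (fun i => blk c i = b) := ⟨_, rfl⟩
  rw [← hB] at hcard ⊢
  have hBne : B.Nonempty := by
    rw [← card_pos]
    omega
  have hmem : ∀ x ∈ B, blk c x = b := by
    intro x hx
    rw [hB, mem_filter] at hx
    exact hx.2
  have hi := B.min'_mem hBne
  have hj := B.max'_mem hBne
  have hij : B.min' hBne < B.max' hBne := B.min'_lt_max'_of_card (by omega)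
  generalize hi' : B.min' hBne = i at *
  generalize hj' : B.max' hBne = j at *
  have hilex : ∀ x ∈ B, i ≤ x := fun x hx => by rw [← hi']; exact B.min'_le x hx
  have hxlej : ∀ x ∈ B, x ≤ j := fun x hx => by rw [← hj']; exact B.le_max' x hx
  have hβ : S i / σ + S ((i : ℕ) + 1) / σ = S j / σ + S ((j : ℕ) + 1) / σ := by
    have h1 := hc i
    have h2 := hc j
    rw [hmem i hi] at h1
    rw [hmem j hj] at h2
    exact h1.symm.trans h2
  have hijn : (i : ℕ) < j := by exact_mod_cast hij
  have h1 := hdiv (hmono (show (i : ℕ) ≤ (i : ℕ) + 1 by omega))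
  have h2 := hdiv (hmono (show (i : ℕ) + 1 ≤ (j : ℕ) by omega))
  have h3 := hdiv (hmono (show (j : ℕ) ≤ (j : ℕ) + 1 by omega))
  have h4 : S ((j : ℕ) + 1) / σ = S i / σ := by omega
  have h5 : S ((j : ℕ) + 1) < S i + σ := by
    have h6 := Nat.div_add_mod (S ((j : ℕ) + 1)) σ
    have h7 := Nat.mod_lt (S ((j : ℕ) + 1)) hσ
    have h8 := Nat.div_add_mod (S i) σ
    rw [h4] at h6
    omega
  have h9 : S i + ∑ x ∈ B, min (ω x) σ ≤ S ((j : ℕ) + 1) := by
    rw [hS, hS, ← sum_union]
    · apply sum_le_sum_of_subset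
      intro x hx
      rw [mem_union] at hx
      rw [mem_filter]
      refine ⟨mem_univ _, ?_⟩
      rcases hx with hx | hx
      · rw [mem_filter] at hx
        omega
      · have h10 : (x : ℕ) ≤ j := by exact_mod_cast hxlej x hx
        omega
    · rw [disjoint_left]
      intro x hx hxB
      rw [mem_filter] at hx
      have h10 : (i : ℕ) ≤ x := by exact_mod_cast hilex x hxB
      omega
  have h10 : ∑ x ∈ B, min (ω x) σ < σ := by omega
  have h11 : ∀ x ∈ B, min (ω x) σ = ω x := by
    intro x hx
    have h12 := single_le_sum (f := fun x => min (ω x) σ) (fun y _ => Nat.zero_le _) hx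
    have h13 : min (ω x) σ < σ := lt_of_le_of_lt h12 h10
    omega
  rw [← sum_congr rfl h11]
  exact h10

end Pool.Agent.Helper16.KAL
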