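import Mathlib

set_option autoImplicit false
set_option linter.unusedSectionVars false

/-!
# Project KAL (MP_c2aa42_lc): hitting sets from Kalorkoti's measure. Definitions.

`KB B ρ f`: Kalorkoti bound. The generator `pt`: the variables are cut into blocks; all blocks use the
same long seed `z`, and every block has two short seeds `y`, `u` of its own.
-/

namespace Pool.Agent.Helper16.KAL

open MvPolynomial Finset

/-- `f` is a polynomial in the variables of `B` and in polynomials `c_0, ..., c_(M-1)` without the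
variables of `B`, and no `ρ + 1` of the `c_k` are algebraically independent. -/
def KB {n : ℕ} (B : Finset (Fin n)) (ρ : ℕ) (f : MvPolynomial (Fin n) ℂ) : Prop :=
  ∃ (M : ℕ) (c : Fin M → MvPolynomial (Fin n) ℂ),
    (∀ k, Disjoint (c k).vars B) ∧
    f ∈ Algebra.adjoin ℂ ((fun i => X i) '' (B : Set (Fin n)) ∪ Set.range c) ∧
    ∀ s : Fin (ρ + 1) → Fin M, ¬ AlgebraicIndependent ℂ (fun i => c (s i))

/-- The block of `i`: the number of cuts `c k` with `c k ≤ i`. -/
def blk {n t : ℕ} (c : Fin t → Fin (n + 1)) (i : Fin n) : Fin (t + 1) :=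
  ⟨(univ.filter (fun k => (c k : ℕ) ≤ i)).card, by
    have h := card_le_univ (univ.filter (fun k : Fin t => (c k : ℕ) ≤ i))
    rw [Fintype.card_fin] at h
    omega⟩

/-- The generator: `x_i = u_b + ∑ j < q, z_j * ((i + 1) * y_b) ^ (j + 1)`, `b` the block of `i`. -/
def pt (n q t : ℕ) {R : Type*} [CommRing R] (c : Fin t → Fin (n + 1)) (z : Fin q → R)
    (y u : Fin (t + 1) → R) (i : Fin n) : R :=
  u (blk c i) + ∑ j : Fin q, z j * (((i : ℕ) + 1 : ℕ) * y (blk c i)) ^ ((j : ℕ) + 1)

/-- The hitting set. -/
def hit (n q t d : ℕ) : Finset (Fin n → ℤ) :=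
  (univ : Finset ((Fin t → Fin (n + 1)) × (Fin q → Fin (d + 1)) ×
    (Fin (t + 1) → Fin (d * q + 1)) × (Fin (t + 1) → Fin (d + 1)))).image
    (fun p => pt n q t p.1 (fun j => (((p.2.1 j : Fin (d + 1)) : ℕ) : ℤ))
      (fun b => (((p.2.2.1 b : Fin (d * q + 1)) : ℕ) : ℤ))
      (fun b => (((p.2.2.2 b : Fin (d + 1)) : ℕ) : ℤ)))

/-- The part of a block consisting of variables of `f`. -/
noncomputable def part {n t : ℕ} (f : MvPolynomial (Fin n) ℂ) (c : Fin t → Fin (n + 1))
    (b : Fin (t + 1)) : Finset (Fin n) :=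
  f.vars.filter (fun i => blk c i = b)

/-- For some cuts, every block has at most one variable of `f`, or a Kalorkoti bound. -/
def Kal (n q t : ℕ) : Set (MvPolynomial (Fin n) ℂ) :=
  {f | ∃ c : Fin t → Fin (n + 1), ∀ b, (part f c b).card ≤ 1 ∨
    ∃ ρ, KB (part f c b) ρ f ∧ ρ + (part f c b).card ≤ q}

/-- The block part of the generator as a linear form in `z`. -/
noncomputable def lin {n : ℕ} (q : ℕ) (y : ℂ) (i : Fin n) : MvPolynomial (Fin q) ℂ :=
  ∑ j : Fin q, C ((((i : ℕ) + 1 : ℕ) * y) ^ ((j : ℕ) + 1)) * X j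

/-! ### Formulas and straight-line programs of formulas -/

/-- Formulas. Leaves: univariate polynomials in a variable, constants, and arbitrary polynomials
in the values of the nodes `0, ..., c-1`. -/
inductive Fm (n c : ℕ)
  | leaf (i : Fin n) (p : Polynomial ℂ)
  | node (F : MvPolynomial (Fin c) ℂ)
  | const (a : ℂ)
  | add (P Q : Fm n c)
  | mul (P Q : Fm n c)

/-- The polynomial computed by a formula, if `h j` is the value of node `j`. -/
noncomputable def Fm.value {n c : ℕ} (h : Fin c → MvPolynomial (Fin n) ℂ) :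
    Fm n c → MvPolynomial (Fin n) ℂ
  | .leaf i p => Polynomial.aeval (X i) p
  | .node F => MvPolynomial.aeval h F
  | .const a => C a
  | .add P Q => P.value h + Q.value h
  | .mul P Q => P.value h * Q.value h

/-- The number of leaves with the variable `i`. -/
def Fm.reads {n c : ℕ} (i : Fin n) : Fm n c → ℕ
  | .leaf j _ => if j = i then 1 else 0
  | .node _ => 0
  | .const _ => 0
  | .add P Q => P.reads i + Q.reads i
  | .mul P Q => P.reads i + Q.reads i

/-- The number of leaves which refer to nodes. -/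
def Fm.refs {n c : ℕ} : Fm n c → ℕ
  | .leaf _ _ => 0
  | .node _ => 1
  | .const _ => 0
  | .add P Q => P.refs + Q.refs
  | .mul P Q => P.refs + Q.refs

/-- Only nodes `k < j` are used. -/
def Fm.Below {n c : ℕ} (j : Fin c) : Fm n c → Prop
  | .leaf _ _ => True
  | .node F => ∀ k ∈ F.vars, k < j
  | .const _ => True
  | .add P Q => P.Below j ∧ Q.Below j
  | .mul P Q => P.Below j ∧ Q.Below j

/-- A straight-line program: node `j` is given by a formula which may use the nodes `k < j`. -/
structure SLP (n c : ℕ) where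
  φ : Fin c → Fm n c
  below : ∀ j, (φ j).Below j

/-- `h` are the values of the nodes. -/
def SLP.Vals {n c : ℕ} (P : SLP n c) (h : Fin c → MvPolynomial (Fin n) ℂ) : Prop :=
  ∀ j, h j = (P.φ j).value h

/-- The number of leaves with the variable `i`. -/
def SLP.reads {n c : ℕ} (P : SLP n c) (i : Fin n) : ℕ := ∑ j, (P.φ j).reads i

/-- The number of leaves which refer to nodes. -/
def SLP.refs {n c : ℕ} (P : SLP n c) : ℕ := ∑ j, (P.φ j).refs

/-! ### Programs of width `w` and determinants -/

/-- The product of the layers of a program of width `w`: a layer `(i, A)` has the matrix `A`, whose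
entries are univariate polynomials, evaluated at the variable `x_i`. -/
noncomputable def prodM {n w : ℕ} (L : List (Fin n × Matrix (Fin w) (Fin w) (Polynomial ℂ))) :
    Matrix (Fin w) (Fin w) (MvPolynomial (Fin n) ℂ) :=
  (L.map (fun l => l.2.map (fun p => Polynomial.aeval (X l.1 : MvPolynomial (Fin n) ℂ) p))).prod

/-- The polynomial computed by a program of width `w`. -/
noncomputable def progVal {n w : ℕ} (L : List (Fin n × Matrix (Fin w) (Fin w) (Polynomial ℂ)))
    (a b : Fin w → ℂ) : MvPolynomial (Fin n) ℂ :=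
  ∑ i, ∑ j, C (a i) * prodM L i j * C (b j)

/-- The number of layers with the variable `i`. -/
def progReads {n w : ℕ} (L : List (Fin n × Matrix (Fin w) (Fin w) (Polynomial ℂ))) (i : Fin n) :
    ℕ := (L.map Prod.fst).count i

/-- A constant matrix as a matrix of polynomials. -/
noncomputable def cM {l m : Type} (n : ℕ) (A : Matrix l m ℂ) :
    Matrix l m (MvPolynomial (Fin n) ℂ) :=
  fun i j => C (A i j)

/-- The diagonal matrix with the entries `p_k(x_(v k))`. -/
noncomputable def diagM {n s : ℕ} (v : Fin s → Fin n) (p : Fin s → Polynomial ℂ) :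
    Matrix (Fin s) (Fin s) (MvPolynomial (Fin n) ℂ) :=
  Matrix.diagonal (fun k => Polynomial.aeval (X (v k)) (p k))

/-- The determinant of `A + ∑ k < s, p_k(x_(v k)) * U_k * V_k`, where `U_k` is the column `k` of `U` and
`V_k` the row `k` of `V`. -/
noncomputable def detVal {n N s : ℕ} (A : Matrix (Fin N) (Fin N) ℂ) (U : Matrix (Fin N) (Fin s) ℂ)
    (V : Matrix (Fin s) (Fin N) ℂ) (v : Fin s → Fin n) (p : Fin s → Polynomial ℂ) :
    MvPolynomial (Fin n) ℂ :=
  (cM n A + cM n U * diagM v p * cM n V).det

end Pool.Agent.Helper16.KAL
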