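import Mathlib

set_option autoImplicit false
set_option linter.unusedSectionVars false

/-!
# KAL-14: expansion of `det (M + U D V)` in the entries of the diagonal matrix `D`

* `det_block`: `det (M + U * D * V) = det [[M, -U], [D * V, 1]]` (`Matrix.det_fromBlocks_one₂₂`:
  `det (fromBlocks A B C 1) = det (A - B * C)`).
* `det_expand`: the row `k` of the lower part of the matrix is `D k • (V k, 0) + (0, e k)`; expand the
  determinant, which is multilinear in the rows (`Matrix.detRowAlternating`,
  `MultilinearMap.map_add_univ` or an induction over the rows), into the sum over the subsets `T` of the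
  lower rows: the rows of `T` are `D k • (V k, 0)`, the others `(0, e k)`. This gives
  `∑ T, (∏ k ∈ T, D k) * det [[M, -U], [P_T V, 1 - P_T]]`, `P_T` the diagonal indicator matrix of `T`.
* `det_mem`: over a field `K` with `det M ≠ 0` the coefficient
  `det [[M, -U], [P V, 1 - P]]` (`P = P_T`) is `det M * det (1 - P + P * V * M⁻¹ * U)`
  (`Matrix.det_fromBlocks₁₁` for invertible `M`), so it lies in every subring (subalgebra) which contains
  `det M` and the entries of `V * M⁻¹ * U`.
-/

namespace Pool.Agent.Helper16.KAL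

open Finset Matrix

/-- The coefficient of `∏ k ∈ T, D k`. -/
def coefT {R : Type*} [CommRing R] {N I : Type} [Fintype N] [DecidableEq N] [Fintype I]
    [DecidableEq I] (M : Matrix N N R) (U : Matrix N I R) (V : Matrix I N R) (T : Finset I) : R :=
  (Matrix.fromBlocks M (-U) (Matrix.diagonal (fun k => if k ∈ T then (1 : R) else 0) * V)
    (Matrix.diagonal (fun k => if k ∈ T then (0 : R) else 1))).det

theorem det_expand {R : Type*} [CommRing R] {N I : Type} [Fintype N] [DecidableEq N] [Fintype I]
    [DecidableEq I] (M : Matrix N N R) (U : Matrix N I R) (V : Matrix I N R) (D : I → R) :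
    (M + U * Matrix.diagonal D * V).det = ∑ T : Finset I, (∏ k ∈ T, D k) * coefT M U V T := by
  classical
  have h1 : (M + U * Matrix.diagonal D * V).det
      = (Matrix.fromBlocks M (-U) (Matrix.diagonal D * V) 1).det := by
    rw [Matrix.det_fromBlocks_one₂₂]
    congr 1
    rw [Matrix.neg_mul, sub_neg_eq_add, Matrix.mul_assoc]
  rw [h1]
  -- rows
  let m' : N ⊕ I → N ⊕ I → R := Sum.elim (fun i => Sum.elim (M i) ((-U) i))
    (fun k => Sum.elim 0 ((1 : Matrix I I R) k))
  let m : N ⊕ I → N ⊕ I → R := Sum.elim (fun _ => 0)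
    (fun k => D k • Sum.elim (V k) (0 : I → R))
  let t : Finset (N ⊕ I) := Finset.univ.map ⟨Sum.inr, Sum.inr_injective⟩
  have h2 : Matrix.fromBlocks M (-U) (Matrix.diagonal D * V) 1 = t.piecewise (m + m') m' := by
    ext a b
    rcases a with i | k
    · have : (Sum.inl i : N ⊕ I) ∉ t := by simp [t]
      rw [Finset.piecewise_eq_of_notMem _ _ _ this]
      rcases b with j | l <;> simp [m']
    · have : (Sum.inr k : N ⊕ I) ∈ t := by simp [t]
      rw [Finset.piecewise_eq_of_mem _ _ _ this]
      rcases b with j | l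
      · simp [m, m', Matrix.diagonal_mul]
      · simp [m, m']
  have h3 := (Matrix.detRowAlternating (R := R) (n := N ⊕ I)).toMultilinearMap.map_piecewise_add
    m m' t
  have h4 : (Matrix.fromBlocks M (-U) (Matrix.diagonal D * V) 1).det
      = ∑ s ∈ t.powerset, Matrix.det (s.piecewise m m' : Matrix (N ⊕ I) (N ⊕ I) R) := by
    rw [h2]; exact h3
  rw [h4]
  symm
  refine Finset.sum_bij' (fun T _ => T.map ⟨Sum.inr, Sum.inr_injective⟩)
    (fun s _ => Finset.univ.filter (fun k => (Sum.inr k : N ⊕ I) ∈ s)) ?_ ?_ ?_ ?_ ?_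
  · intro T _
    rw [Finset.mem_powerset]
    exact Finset.map_subset_map.2 (Finset.subset_univ T)
  · intro s _
    exact Finset.mem_univ _
  · intro T _
    ext k
    simp
  · intro s hs
    rw [Finset.mem_powerset] at hs
    ext a
    rcases a with i | k
    · have h5 : (Sum.inl i : N ⊕ I) ∉ s := fun h => by
        have := hs h
        simp [t] at this
      simp [h5]
    · simp
  · intro T _
    let c : N ⊕ I → R := Sum.elim (fun _ => 1) D
    let m0 : N ⊕ I → N ⊕ I → R := Sum.elim (fun i => Sum.elim (M i) ((-U) i))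
      (fun k => if k ∈ T then Sum.elim (V k) 0 else Sum.elim 0 ((1 : Matrix I I R) k))
    have h6 := (Matrix.detRowAlternating (R := R) (n := N ⊕ I)).toMultilinearMap.map_piecewise_smul
      c m0 (T.map ⟨Sum.inr, Sum.inr_injective⟩)
    have h7 : (T.map ⟨Sum.inr, Sum.inr_injective⟩ : Finset (N ⊕ I)).piecewise (fun i => c i • m0 i) m0
        = (T.map ⟨Sum.inr, Sum.inr_injective⟩ : Finset (N ⊕ I)).piecewise m m' := by
      ext a b
      rcases a with i | k
      · have h8 : (Sum.inl i : N ⊕ I) ∉ (T.map ⟨Sum.inr, Sum.inr_injective⟩ : Finset (N ⊕ I)) := by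
          simp
        rw [Finset.piecewise_eq_of_notMem _ _ _ h8, Finset.piecewise_eq_of_notMem _ _ _ h8]
        rfl
      · by_cases hk : k ∈ T
        · have h8 : (Sum.inr k : N ⊕ I) ∈ (T.map ⟨Sum.inr, Sum.inr_injective⟩ : Finset (N ⊕ I)) := by
            simp [hk]
          rw [Finset.piecewise_eq_of_mem _ _ _ h8, Finset.piecewise_eq_of_mem _ _ _ h8]
          simp [c, m0, m, hk]
        · have h8 : (Sum.inr k : N ⊕ I) ∉ (T.map ⟨Sum.inr, Sum.inr_injective⟩ : Finset (N ⊕ I)) := by
            simp [hk]
          rw [Finset.piecewise_eq_of_notMem _ _ _ h8, Finset.piecewise_eq_of_notMem _ _ _ h8]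
          simp [m0, m', hk]
    have h9 : Matrix.det ((T.map ⟨Sum.inr, Sum.inr_injective⟩ : Finset (N ⊕ I)).piecewise m m' :
        Matrix (N ⊕ I) (N ⊕ I) R) = (∏ k ∈ T, D k) * Matrix.det (m0 : Matrix (N ⊕ I) (N ⊕ I) R) := by
      rw [← h7]
      have h10 : (∏ i ∈ (T.map ⟨Sum.inr, Sum.inr_injective⟩ : Finset (N ⊕ I)), c i)
          = ∏ k ∈ T, D k := by
        rw [Finset.prod_map]; rfl
      rw [← h10]
      exact h6
    have h11 : (m0 : Matrix (N ⊕ I) (N ⊕ I) R)
        = Matrix.fromBlocks M (-U) (Matrix.diagonal (fun k => if k ∈ T then (1 : R) else 0) * V)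
          (Matrix.diagonal (fun k => if k ∈ T then (0 : R) else 1)) := by
      ext a b
      rcases a with i | k
      · rcases b with j | l <;> simp [m0]
      · by_cases hk : k ∈ T
        · rcases b with j | l
          · simp [m0, hk, Matrix.diagonal_mul]
          · by_cases hkl : k = l
            · subst hkl; simp [m0, hk]
            · simp [m0, hk, Matrix.diagonal_apply_ne _ hkl]
        · rcases b with j | l
          · simp [m0, hk, Matrix.diagonal_mul]
          · by_cases hkl : k = l
            · subst hkl; simp [m0, hk]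
            · simp [m0, hk, Matrix.diagonal_apply_ne _ hkl, Matrix.one_apply_ne hkl]
    rw [h9, h11]
    rfl

theorem coefT_mem {K : Type*} [Field K] [Algebra ℂ K] {N I : Type} [Fintype N] [DecidableEq N]
    [Fintype I] [DecidableEq I] (M : Matrix N N K) (hM : M.det ≠ 0) (U : Matrix N I K)
    (V : Matrix I N K) (T : Finset I) (A : Subalgebra ℂ K) (h1 : M.det ∈ A)
    (h2 : ∀ i j, (V * M⁻¹ * U) i j ∈ A) : coefT M U V T ∈ A := by
  classical
  have hdet : ∀ (X : Matrix I I K), (∀ i j, X i j ∈ A) → X.det ∈ A := by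
    intro X hX
    rw [Matrix.det_apply']
    refine A.sum_mem fun σ _ => A.mul_mem ?_ (A.prod_mem fun i _ => hX _ _)
    exact A.intCast_mem _
  have hu : IsUnit M := (Matrix.isUnit_iff_isUnit_det M).2 (isUnit_iff_ne_zero.2 hM)
  obtain ⟨inv⟩ : Nonempty (Invertible M) := ⟨hu.invertible⟩
  unfold coefT
  rw [Matrix.det_fromBlocks₁₁]
  refine A.mul_mem h1 (hdet _ fun i j => ?_)
  have h3 : (Matrix.diagonal (fun k => if k ∈ T then (0 : K) else 1)
      - Matrix.diagonal (fun k => if k ∈ T then (1 : K) else 0) * V * ⅟M * (-U))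
      = Matrix.diagonal (fun k => if k ∈ T then (0 : K) else 1)
      + Matrix.diagonal (fun k => if k ∈ T then (1 : K) else 0) * (V * M⁻¹ * U) := by
    rw [Matrix.mul_neg, sub_neg_eq_add, Matrix.invOf_eq_nonsing_inv, Matrix.mul_assoc,
      Matrix.mul_assoc, Matrix.mul_assoc V]
  rw [h3, Matrix.add_apply, Matrix.diagonal_mul]
  refine A.add_mem ?_ (A.mul_mem ?_ (h2 i j))
  · by_cases hij : i = j
    · subst hij
      rw [Matrix.diagonal_apply_eq]
      split_ifs
      · exact A.zero_mem
      · exact A.one_mem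
    · rw [Matrix.diagonal_apply_ne _ hij]
      exact A.zero_mem
  · split_ifs
    · exact A.one_mem
    · exact A.zero_mem

theorem coefT_map {R S : Type*} [CommRing R] [CommRing S] (φ : R →+* S) {N I : Type} [Fintype N]
    [DecidableEq N] [Fintype I] [DecidableEq I] (M : Matrix N N R) (U : Matrix N I R)
    (V : Matrix I N R) (T : Finset I) :
    φ (coefT M U V T) = coefT (M.map φ) (U.map φ) (V.map φ) T := by
  unfold coefT
  rw [RingHom.map_det, RingHom.mapMatrix_apply, Matrix.fromBlocks_map]
  congr 2
  · ext i j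
    simp
  · rw [Matrix.map_mul, Matrix.diagonal_map (map_zero φ)]
    congr 2
    funext k
    by_cases hk : k ∈ T <;> simp [hk]
  · rw [Matrix.diagonal_map (map_zero φ)]
    congr 1
    funext k
    by_cases hk : k ∈ T <;> simp [hk]

end Pool.Agent.Helper16.KAL
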