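import Pool.Agent.Helper28.D4.Norm
import Pool.Agent.Helper93.D4.M2

set_option autoImplicit false
set_option linter.unusedSectionVars false

/-!
# KAL-05: the norm trick for finite index types, and dependence of many elements

* `norm_trick2`: transport `Helper28.D4.norm_trick` along bijections `ι ≃ Fin m`, `τ ≃ Fin n`
  (`MvPolynomial.renameEquiv`, `AlgebraicIndependent` under injective algebra maps and
  reindexing).
* `dep_of_adjoin`: `P i = aeval g (G i)` with `G i ∈ MvPolynomial (Fin N) ℂ`
  (`Algebra.adjoin_range_eq_range_aeval`). If `P` were algebraically independent then so would be `G`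
  (`AlgebraicIndependent.of_comp`), and `Helper93.D4.jac_of_algInd` would give
  `e : Fin (N + 1) → Fin N` with a nonzero determinant; but `e` is not injective, so the matrix has two
  equal columns (`Matrix.det_zero_of_column_eq`).
* `dep_sum`: suppose `s : Fin (ρ + m + 1) → κ ⊕ μ` has independent values. Then `s` is injective
  (`AlgebraicIndependent.injective`), at most `m` indices go to `μ`, so at least `ρ + 1` go to `κ`:
  choose an injection `Fin (ρ + 1)` into these indices, and get an independent family of length
  `ρ + 1` of the `u k` (`AlgebraicIndependent.comp`).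
-/

namespace Pool.Agent.Helper16.KAL

open MvPolynomial Finset

theorem norm_trick2 {ι τ : Type} [Fintype ι] [Fintype τ] (P : ι → MvPolynomial τ ℂ) (N : ℕ)
    (hN : ∀ s : Fin (N + 1) → ι, ¬ AlgebraicIndependent ℂ (fun i => P (s i)))
    (g : MvPolynomial ι ℂ) (hg : aeval P g ≠ 0) :
    ∃ r ≤ N, ∃ s : Fin r → ι, AlgebraicIndependent ℂ (fun i => P (s i)) ∧
      ∃ (B : MvPolynomial (Fin r) ℂ) (h : MvPolynomial ι ℂ), B ≠ 0 ∧
        aeval (fun i => P (s i)) B = aeval P g * aeval P h := by
  classical
  obtain ⟨m, ⟨ei⟩⟩ := Finite.exists_equiv_fin ι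
  obtain ⟨n, ⟨et⟩⟩ := Finite.exists_equiv_fin τ
  have hinj : Function.Injective (rename et : MvPolynomial τ ℂ →ₐ[ℂ] MvPolynomial (Fin n) ℂ) :=
    rename_injective _ et.injective
  have key : ∀ h : MvPolynomial (Fin m) ℂ,
      aeval (fun i => rename et (P (ei.symm i))) h = rename et (aeval P (rename ei.symm h)) := by
    intro h
    rw [aeval_rename, comp_aeval_apply]
    rfl
  have key2 : aeval (fun i => rename et (P (ei.symm i))) (rename ei g) = rename et (aeval P g) := by
    rw [key, rename_rename]
    congr 2
    have h1 : (ei.symm ∘ ei : ι → ι) = id := by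
      funext i
      simp
    rw [h1, rename_id]
    rfl
  obtain ⟨r, hr, s, hs, B, h, hB, hBh⟩ := Pool.Agent.Helper28.D4.norm_trick (r := N)
    (fun i => rename et (P (ei.symm i)))
    (by
      intro s hs
      exact hN (fun i => ei.symm (s i)) (AlgebraicIndependent.of_comp (rename et) hs))
    (rename ei g)
    (by
      rw [key2]
      intro h0
      exact hg (hinj (h0.trans (map_zero _).symm)))
  refine ⟨r, hr, fun i => ei.symm (s i), AlgebraicIndependent.of_comp (rename et) hs, B,
    rename ei.symm h, hB, ?_⟩
  apply hinj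
  rw [map_mul, ← key2, ← key, ← hBh, comp_aeval_apply]

theorem dep_of_adjoin {A : Type*} [CommRing A] [Algebra ℂ A] {N : ℕ} (g : Fin N → A)
    (P : Fin (N + 1) → A) (hP : ∀ i, P i ∈ Algebra.adjoin ℂ (Set.range g)) :
    ¬ AlgebraicIndependent ℂ P := by
  intro h
  rw [Algebra.adjoin_range_eq_range_aeval] at hP
  have hex : ∀ i, ∃ G : MvPolynomial (Fin N) ℂ, aeval g G = P i := hP
  choose G hG using hex
  have h1 : AlgebraicIndependent ℂ G := by
    apply AlgebraicIndependent.of_comp (aeval g)
    have h2 : (⇑(aeval g) ∘ G : Fin (N + 1) → A) = P := funext hG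
    rw [h2]
    exact h
  obtain ⟨e, he⟩ := Pool.Agent.Helper93.D4.jac_of_algInd G h1
  have h3 : ¬ Function.Injective e := by
    intro h4
    have h5 := Fintype.card_le_of_injective e h4
    simp at h5
  rw [Function.not_injective_iff] at h3
  obtain ⟨i, j, hij, hne⟩ := h3
  apply he
  apply Matrix.det_zero_of_column_eq hne
  intro k
  simp only [Matrix.of_apply, hij]

theorem dep_sum {A κ μ : Type*} [CommRing A] [Algebra ℂ A] [Nontrivial A] [Fintype μ] {ρ : ℕ}
    (u : κ → A) (v : μ → A)
    (hu : ∀ s : Fin (ρ + 1) → κ, ¬ AlgebraicIndependent ℂ (fun i => u (s i)))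
    (s : Fin (ρ + Fintype.card μ + 1) → κ ⊕ μ) :
    ¬ AlgebraicIndependent ℂ (fun i => Sum.elim u v (s i)) := by
  classical
  intro h
  have hinj : Function.Injective s := by
    intro i j hij
    apply h.injective
    change Sum.elim u v (s i) = Sum.elim u v (s j)
    rw [hij]
  have hJ : Fintype.card {i // ¬ (s i).isLeft = true} ≤ Fintype.card μ := by
    have hex : ∀ i : {i // ¬ (s i).isLeft = true}, ∃ m, s i = Sum.inr m := by
      rintro ⟨i, hi⟩
      rcases hsi : s i with a | b
      · rw [hsi] at hi
        simp at hi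
      · exact ⟨b, rfl⟩
    choose w hw using hex
    apply Fintype.card_le_of_injective w
    intro i j hij
    apply Subtype.ext
    apply hinj
    rw [hw i, hw j, hij]
  have hI : ρ + 1 ≤ Fintype.card {i // (s i).isLeft = true} := by
    have h1 := Fintype.card_subtype_compl (fun i => (s i).isLeft = true)
    have h2 := Fintype.card_subtype_le (fun i => (s i).isLeft = true)
    rw [Fintype.card_fin] at h1 h2
    omega
  have hex : ∀ i : {i // (s i).isLeft = true}, ∃ k, s i = Sum.inl k := by
    rintro ⟨i, hi⟩
    rcases hsi : s i with a | b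
    · exact ⟨a, rfl⟩
    · rw [hsi] at hi
      simp at hi
  choose w hw using hex
  obtain ⟨f⟩ : Nonempty (Fin (ρ + 1) ↪ {i // (s i).isLeft = true}) := by
    apply Function.Embedding.nonempty_of_card_le
    rw [Fintype.card_fin]
    exact hI
  apply hu (fun a => w (f a))
  have h3 := h.comp (fun a => (f a : Fin (ρ + Fintype.card μ + 1)))
    (Subtype.val_injective.comp f.injective)
  have h4 : ((fun i => Sum.elim u v (s i)) ∘
      (fun a => (f a : Fin (ρ + Fintype.card μ + 1)))) = fun a => u (w (f a)) := by
    funext a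
    change Sum.elim u v (s (f a)) = _
    rw [hw (f a)]
    rfl
  rw [h4] at h3
  exact h3

end Pool.Agent.Helper16.KAL
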