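import Pool.Agent.Helper16.KAL.DetA
import Pool.Agent.Helper16.KAL.Norm2
import Pool.Agent.Helper16.KAL.Defs
import Pool.Agent.Helper28.D4.Hit

set_option autoImplicit false
set_option linter.unusedSectionVars false

/-!
# KAL-15: determinants

`kb_det`. If `f = detVal A U V v p = 0` take `M = 0` (`Fin 0` is empty). Otherwise let `a` be a point with
`eval a f ≠ 0` (`Helper28.D4.exists_eval_ne_zero`), `I = {k : Fin s // v k ∈ B}`, of cardinality
`ℓ = card (univ.filter (fun k => v k ∈ B))`. Let `E k = aeval (X (v k)) (p k)` for `v k ∉ B` and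
`E k = C ((p k).eval (a (v k)))` for `v k ∈ B`, `M₀ = cM n A + cM n U * diagonal E * cM n V`, a matrix over the
polynomials without the variables of `B`, and `D k = aeval (X (v k)) (p k) - C ((p k).eval (a (v k)))` for
`k : I`. Then the matrix of `detVal` is `M₀ + U_I * diagonal D * V_I`, with `U_I`, `V_I` the columns / rows
in `I`, so `f = ∑ T, (∏ k ∈ T, D k) * coefT M₀ U_I V_I T` (`det_expand`), the `D k` are in
`adjoin (X '' B)` and the `c_T = coefT M₀ U_I V_I T` do not involve `B` (a determinant of polynomials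
without the variables of `B`; e.g. `coefT_map` for the algebra map which sends the variables of `B` to `0` and
fixes the others: `c_T` is in its range / is fixed). Index the `c_T` by `Fin (card (Finset I))`.
Independence: `det M₀ ≠ 0` because its value at `a` is the value of `f`. In
`K = FractionRing (MvPolynomial (Fin n) ℂ)` all `c_T` lie in the subalgebra generated by `det M₀` and the
`ℓ ^ 2` entries of `V_I * M₀⁻¹ * U_I` (`coefT_map`, `coefT_mem`), so no `ℓ ^ 2 + 2` of them are independent
(`dep_of_adjoin` for a family indexed by `Fin (ℓ ^ 2 + 1)`); independence passes from the polynomial ring to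
`K` (injective algebra map, `AlgebraicIndependent.map'`).
`det_vars`: as the entries of the matrix involve only the variables `v k`.
-/

namespace Pool.Agent.Helper16.KAL

open MvPolynomial Finset

private theorem db_det_mem {R : Type*} [CommRing R] [Algebra ℂ R] (S : Subalgebra ℂ R)
    {m : Type} [Fintype m] [DecidableEq m] (M : Matrix m m R) (h : ∀ i j, M i j ∈ S) :
    M.det ∈ S := by
  rw [Matrix.det_apply]
  refine Subalgebra.sum_mem _ fun σ _ => ?_
  rw [Units.smul_def]
  exact zsmul_mem (Subalgebra.prod_mem _ fun i _ => h _ _) _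

private theorem db_coefT_mem {R : Type*} [CommRing R] [Algebra ℂ R] (S : Subalgebra ℂ R)
    {N I : Type} [Fintype N] [DecidableEq N] [Fintype I] [DecidableEq I] (M : Matrix N N R)
    (U : Matrix N I R) (V : Matrix I N R) (T : Finset I) (hM : ∀ i j, M i j ∈ S)
    (hU : ∀ i j, U i j ∈ S) (hV : ∀ i j, V i j ∈ S) : coefT M U V T ∈ S := by
  unfold coefT
  refine db_det_mem S _ ?_
  rintro (i | i) (j | j)
  · rw [Matrix.fromBlocks_apply₁₁]
    exact hM i j
  · rw [Matrix.fromBlocks_apply₁₂, Matrix.neg_apply]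
    exact Subalgebra.neg_mem _ (hU i j)
  · rw [Matrix.fromBlocks_apply₂₁, Matrix.diagonal_mul]
    refine Subalgebra.mul_mem _ ?_ (hV i j)
    split_ifs
    · exact S.one_mem
    · exact S.zero_mem
  · rw [Matrix.fromBlocks_apply₂₂, Matrix.diagonal_apply]
    split_ifs
    · exact S.zero_mem
    · exact S.one_mem
    · exact S.zero_mem

private theorem db_leaf_mem {n : ℕ} (i : Fin n) (p : Polynomial ℂ)
    (S : Subalgebra ℂ (MvPolynomial (Fin n) ℂ)) (hi : (X i : MvPolynomial (Fin n) ℂ) ∈ S) :
    Polynomial.aeval (X i : MvPolynomial (Fin n) ℂ) p ∈ S := by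
  have h1 : Polynomial.aeval (X i : MvPolynomial (Fin n) ℂ) p ∈
      Algebra.adjoin ℂ {(X i : MvPolynomial (Fin n) ℂ)} := Polynomial.aeval_mem_adjoin_singleton ℂ _
  exact (Algebra.adjoin_le (Set.singleton_subset_iff.mpr hi)) h1

private theorem db_prod_apply {n N s : ℕ} (U : Matrix (Fin N) (Fin s) ℂ)
    (V : Matrix (Fin s) (Fin N) ℂ) (E : Fin s → MvPolynomial (Fin n) ℂ) (i j : Fin N) :
    (cM n U * Matrix.diagonal E * cM n V) i j = ∑ k, C (U i k) * E k * C (V k j) := by
  rw [Matrix.mul_apply]
  refine Finset.sum_congr rfl fun k _ => ?_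
  rw [Matrix.mul_diagonal]
  rfl

theorem kb_det {n N s : ℕ} (A : Matrix (Fin N) (Fin N) ℂ) (U : Matrix (Fin N) (Fin s) ℂ)
    (V : Matrix (Fin s) (Fin N) ℂ) (v : Fin s → Fin n) (p : Fin s → Polynomial ℂ)
    (B : Finset (Fin n)) :
    KB B ((univ.filter (fun k => v k ∈ B)).card ^ 2 + 1) (detVal A U V v p) := by
  classical
  rcases eq_or_ne (detVal A U V v p) 0 with h0 | h0
  · rw [h0]
    refine ⟨0, fun k => k.elim0, fun k => k.elim0, Subalgebra.zero_mem _, fun s => (s 0).elim0⟩
  obtain ⟨a, ha⟩ := Pool.Agent.Helper28.D4.exists_eval_ne_zero _ h0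
  -- the objects
  let I : Type := {k : Fin s // v k ∈ B}
  let E : Fin s → MvPolynomial (Fin n) ℂ := fun k =>
    if v k ∈ B then C ((p k).eval (a (v k))) else Polynomial.aeval (X (v k)) (p k)
  let D : I → MvPolynomial (Fin n) ℂ := fun k =>
    Polynomial.aeval (X (v k.1)) (p k.1) - C ((p k.1).eval (a (v k.1)))
  let M₀ : Matrix (Fin N) (Fin N) (MvPolynomial (Fin n) ℂ) :=
    cM n A + cM n U * Matrix.diagonal E * cM n V
  let UI : Matrix (Fin N) I (MvPolynomial (Fin n) ℂ) := fun i k => C (U i k.1)
  let VI : Matrix I (Fin N) (MvPolynomial (Fin n) ℂ) := fun k j => C (V k.1 j)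
  have hcard : Fintype.card I = (univ.filter (fun k => v k ∈ B)).card := Fintype.card_subtype _
  have hsplit : cM n A + cM n U * diagM v p * cM n V =
      M₀ + UI * Matrix.diagonal D * VI := by
    ext1 i j
    show (cM n A + cM n U * diagM v p * cM n V) i j =
      ((cM n A + cM n U * Matrix.diagonal E * cM n V) + UI * Matrix.diagonal D * VI) i j
    rw [Matrix.add_apply, Matrix.add_apply, Matrix.add_apply, add_assoc]
    congr 1
    unfold diagM
    rw [db_prod_apply, db_prod_apply, Matrix.mul_apply]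
    have h1 : ∀ k : I, (UI * Matrix.diagonal D) i k * VI k j =
        C (U i k.1) * (Polynomial.aeval (X (v k.1)) (p k.1) - C ((p k.1).eval (a (v k.1)))) *
          C (V k.1 j) := by
      intro k
      rw [Matrix.mul_diagonal]
    rw [Finset.sum_congr rfl fun k _ => h1 k]
    have h2 : ∑ k : I, C (U i k.1) * (Polynomial.aeval (X (v k.1)) (p k.1) -
        C ((p k.1).eval (a (v k.1)))) * C (V k.1 j) =
        ∑ k ∈ univ.filter (fun k => v k ∈ B), C (U i k) * (Polynomial.aeval (X (v k)) (p k) -
        C ((p k).eval (a (v k)))) * (C (V k j) : MvPolynomial (Fin n) ℂ) := by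
      rw [Finset.sum_subtype (univ.filter (fun k => v k ∈ B)) (p := fun k => v k ∈ B)
        (fun k => by simp)]
    rw [h2, Finset.sum_filter, ← Finset.sum_add_distrib]
    refine Finset.sum_congr rfl fun k _ => ?_
    by_cases hk : v k ∈ B
    · simp only [E, if_pos hk]
      ring
    · simp only [E, if_neg hk, add_zero]
  have hf : detVal A U V v p = ∑ T : Finset I, (∏ k ∈ T, D k) * coefT M₀ UI VI T := by
    unfold detVal
    rw [hsplit, det_expand]
  -- the polynomials without the variables of `B`
  let Y : Subalgebra ℂ (MvPolynomial (Fin n) ℂ) :=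
    MvPolynomial.supported ℂ ((B : Set (Fin n))ᶜ)
  have hYm : ∀ g : MvPolynomial (Fin n) ℂ, g ∈ Y ↔ Disjoint g.vars B := by
    intro g
    rw [MvPolynomial.mem_supported, Set.subset_compl_iff_disjoint_right, Finset.disjoint_coe]
  have hYX : ∀ i, i ∉ B → (X i : MvPolynomial (Fin n) ℂ) ∈ Y := by
    intro i hi
    exact Algebra.subset_adjoin ⟨i, by simpa using hi, rfl⟩
  have hYC : ∀ z : ℂ, (C z : MvPolynomial (Fin n) ℂ) ∈ Y := fun z => Y.algebraMap_mem z
  have hEY : ∀ k, E k ∈ Y := by
    intro k
    by_cases hk : v k ∈ B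
    · simp only [E, if_pos hk]
      exact hYC _
    · simp only [E, if_neg hk]
      exact db_leaf_mem _ _ Y (hYX _ hk)
  have hM₀Y : ∀ i j, M₀ i j ∈ Y := by
    intro i j
    show (cM n A + cM n U * Matrix.diagonal E * cM n V) i j ∈ Y
    rw [Matrix.add_apply, db_prod_apply]
    refine Y.add_mem (hYC _) (Subalgebra.sum_mem _ fun k _ => ?_)
    exact Y.mul_mem (Y.mul_mem (hYC _) (hEY k)) (hYC _)
  have hcY : ∀ T, coefT M₀ UI VI T ∈ Y := fun T =>
    db_coefT_mem Y M₀ UI VI T hM₀Y (fun i j => hYC _) (fun i j => hYC _)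
  let e : Finset I ≃ Fin (Fintype.card (Finset I)) := Fintype.equivFin _
  refine ⟨Fintype.card (Finset I), fun k => coefT M₀ UI VI (e.symm k), fun k => ?_, ?_, ?_⟩
  · exact (hYm _).mp (hcY _)
  · rw [hf]
    refine Subalgebra.sum_mem _ fun T _ => Subalgebra.mul_mem _ ?_ ?_
    · refine Subalgebra.prod_mem _ fun k _ => ?_
      refine Subalgebra.sub_mem _ (db_leaf_mem _ _ _ (Algebra.subset_adjoin
        (Or.inl ⟨v k.1, Finset.mem_coe.mpr k.2, rfl⟩))) (Subalgebra.algebraMap_mem _ _)
    · exact Algebra.subset_adjoin (Or.inr ⟨e T, by simp⟩)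
  · intro t hind
    -- the determinant of `M₀` is not zero
    have hdet : M₀.det ≠ 0 := by
      intro hcon
      apply ha
      have h1 : (cM n A + cM n U * diagM v p * cM n V).map (MvPolynomial.eval a) =
          M₀.map (MvPolynomial.eval a) := by
        ext1 i j
        rw [Matrix.map_apply, Matrix.map_apply]
        show MvPolynomial.eval a ((cM n A + cM n U * diagM v p * cM n V) i j) =
          MvPolynomial.eval a ((cM n A + cM n U * Matrix.diagonal E * cM n V) i j)
        rw [Matrix.add_apply, Matrix.add_apply]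
        unfold diagM
        rw [db_prod_apply, db_prod_apply, map_add, map_add]
        congr 1
        rw [map_sum, map_sum]
        refine Finset.sum_congr rfl fun k _ => ?_
        rw [map_mul, map_mul, map_mul, map_mul]
        congr 2
        by_cases hk : v k ∈ B
        · simp only [E, if_pos hk]
          rw [MvPolynomial.eval_C, ← MvPolynomial.coe_aeval_eq_eval, AlgHom.coe_toRingHom,
            ← Polynomial.aeval_algHom_apply, MvPolynomial.aeval_X, Polynomial.coe_aeval_eq_eval]
        · simp only [E, if_neg hk]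
      unfold detVal
      rw [RingHom.map_det, RingHom.mapMatrix_apply, h1, ← RingHom.mapMatrix_apply,
        ← RingHom.map_det, hcon, map_zero]
    let R := MvPolynomial (Fin n) ℂ
    let K := FractionRing R
    let φ : R →ₐ[ℂ] K := IsScalarTower.toAlgHom ℂ R K
    have hφ : Function.Injective φ := IsFractionRing.injective R K
    have hind' := hind.map' hφ
    let M' : Matrix (Fin N) (Fin N) K := M₀.map (φ : R →+* K)
    let U' : Matrix (Fin N) I K := UI.map (φ : R →+* K)
    let V' : Matrix I (Fin N) K := VI.map (φ : R →+* K)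
    have hdet' : M'.det ≠ 0 := by
      intro hcon
      apply hdet
      apply hφ
      rw [map_zero]
      have h1 := RingHom.map_det (φ : R →+* K) M₀
      rw [RingHom.mapMatrix_apply] at h1
      exact h1.trans hcon
    let g₀ : Option (I × I) → K := fun o => o.elim M'.det (fun q => (V' * M'⁻¹ * U') q.1 q.2)
    have hc2 : Fintype.card (Option (I × I)) = (univ.filter (fun k => v k ∈ B)).card ^ 2 + 1 := by
      rw [Fintype.card_option, Fintype.card_prod, hcard, sq]
    let e₂ : Option (I × I) ≃ Fin ((univ.filter (fun k => v k ∈ B)).card ^ 2 + 1) :=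
      Fintype.equivFinOfCardEq hc2
    refine dep_of_adjoin (fun i => g₀ (e₂.symm i)) _ ?_ hind'
    intro i
    have h1 : (φ : R →+* K) (coefT M₀ UI VI (e.symm (t i))) = coefT M' U' V' (e.symm (t i)) :=
      coefT_map (φ : R →+* K) M₀ UI VI _
    show (φ : R →+* K) (coefT M₀ UI VI (e.symm (t i))) ∈ _
    rw [h1]
    refine coefT_mem M' hdet' U' V' _ _ ?_ ?_
    · exact Algebra.subset_adjoin ⟨e₂ none, by simp [g₀]⟩
    · intro i' j'
      exact Algebra.subset_adjoin ⟨e₂ (some (i', j')), by simp [g₀]⟩

theorem det_vars {n N s : ℕ} (A : Matrix (Fin N) (Fin N) ℂ) (U : Matrix (Fin N) (Fin s) ℂ)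
    (V : Matrix (Fin s) (Fin N) ℂ) (v : Fin s → Fin n) (p : Fin s → Polynomial ℂ) (i : Fin n)
    (hi : i ∈ (detVal A U V v p).vars) : 0 < (univ.filter (fun k => v k = i)).card := by
  classical
  by_contra hcon
  have hne : ∀ k, v k ≠ i := by
    intro k hk
    apply hcon
    rw [Finset.card_pos]
    exact ⟨k, by simp [hk]⟩
  have hmem : detVal A U V v p ∈ MvPolynomial.supported ℂ (({i} : Set (Fin n))ᶜ) := by
    unfold detVal
    refine db_det_mem _ _ fun i' j' => ?_
    rw [Matrix.add_apply]
    unfold diagM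
    rw [db_prod_apply]
    refine Subalgebra.add_mem _ (Subalgebra.algebraMap_mem _ _)
      (Subalgebra.sum_mem _ fun k _ => ?_)
    refine Subalgebra.mul_mem _ (Subalgebra.mul_mem _ (Subalgebra.algebraMap_mem _ _) ?_)
      (Subalgebra.algebraMap_mem _ _)
    exact db_leaf_mem _ _ _ (Algebra.subset_adjoin ⟨v k, by simpa using hne k, rfl⟩)
  rw [MvPolynomial.mem_supported] at hmem
  exact (hmem (Finset.mem_coe.mpr hi)) rfl

end Pool.Agent.Helper16.KAL
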