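import Pool.Agent.Helper16.KAL.Defs

set_option autoImplicit false
set_option linter.unusedSectionVars false

/-!
# KAL-11: Kalorkoti's argument for one formula

Let `Y` be the set of polynomials without the variables of `B` (closed under `+`, `*`:
`MvPolynomial.vars_add_subset`, `vars_mul`), `T` the set of the `X i`, `i ∈ B`, and the `h k`, `k < j`,
`L(P) = ∑ i ∈ B, P.reads i + P.refs`. Prove by induction on the formula `P` with `P.Below j`:
* if `L(P) = 0` then `P.value h ∈ Y`;
* if `L(P) ≥ 1` there are `α, β ∈ Y`, a list (or finite set) `G` of at most `4 * (L(P) - 1)` elements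
  of `Y`, and `Q ∈ adjoin (T ∪ G)` with `P.value h = α * Q + β`.
Leaves: a leaf of `i ∈ B` or a node leaf has `L = 1`: `α = 1`, `β = 0`, `G = ∅`, `Q` the value
(`Polynomial.aeval (X i) p ∈ adjoin {X i}`; `aeval h F ∈ adjoin (h '' F.vars)`). Sum or product, one side
with `L = 0` and value `γ ∈ Y`: `α Q + (β + γ)` or `(γ α) Q + γ β`. Both sides with `L ≥ 1`: put
`α₁, β₁, α₂, β₂` into `G`, new `Q` = the value, `α = 1`, `β = 0`: `4 (L₁ - 1) + 4 (L₂ - 1) + 4 = 4 (L₁ + L₂ - 1)`.
Finally `P.value h ∈ adjoin (T ∪ G ∪ {α, β})` with `4 (L - 1) + 2 ≤ 4 L + 1` elements, or, for `L = 0`,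
`G = {P.value h}`. It is convenient to use lists or `Finset`s with card bounds, and to convert to
`Fin (4 * L + 1) → _` at the end (repeat 0: `0` has no variables).
-/

namespace Pool.Agent.Helper16.KAL

open MvPolynomial Finset

private theorem fmb_node_mem {n c : ℕ} (h : Fin c → MvPolynomial (Fin n) ℂ)
    (S : Subalgebra ℂ (MvPolynomial (Fin n) ℂ)) (F : MvPolynomial (Fin c) ℂ)
    (hF : ∀ k ∈ F.vars, h k ∈ S) : MvPolynomial.aeval h F ∈ S := by
  rw [MvPolynomial.aeval_def, MvPolynomial.eval₂_eq]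
  refine Subalgebra.sum_mem _ fun d hd => ?_
  refine Subalgebra.mul_mem _ (Subalgebra.algebraMap_mem _ _) ?_
  refine Subalgebra.prod_mem _ fun i hi => ?_
  refine Subalgebra.pow_mem _ (hF i ?_) _
  rw [MvPolynomial.mem_vars]
  exact ⟨d, hd, hi⟩

private theorem fmb_leaf_mem {n : ℕ} (i : Fin n) (p : Polynomial ℂ)
    (S : Subalgebra ℂ (MvPolynomial (Fin n) ℂ)) (hi : (X i : MvPolynomial (Fin n) ℂ) ∈ S) :
    Polynomial.aeval (X i : MvPolynomial (Fin n) ℂ) p ∈ S := by
  have h1 : Polynomial.aeval (X i : MvPolynomial (Fin n) ℂ) p ∈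
      Algebra.adjoin ℂ {(X i : MvPolynomial (Fin n) ℂ)} := Polynomial.aeval_mem_adjoin_singleton ℂ _
  exact (Algebra.adjoin_le (Set.singleton_subset_iff.mpr hi)) h1

private theorem fmb_pad {α : Type} [Zero α] (S : Finset α) {m : ℕ} (hm : S.card ≤ m) :
    ∃ f : Fin m → α, (∀ x ∈ S, ∃ k, f k = x) ∧ ∀ k, f k ∈ S ∨ f k = 0 := by
  classical
  refine ⟨fun k => if h : (k : ℕ) < S.card then (S.equivFin.symm ⟨k, h⟩ : α) else 0, ?_, ?_⟩
  · intro x hx
    refine ⟨⟨(S.equivFin ⟨x, hx⟩ : ℕ), lt_of_lt_of_le (S.equivFin ⟨x, hx⟩).2 hm⟩, ?_⟩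
    simp
  · intro k
    by_cases h : (k : ℕ) < S.card
    · left
      simp only [dif_pos h]
      exact (S.equivFin.symm ⟨k, h⟩).2
    · right
      simp only [dif_neg h]

private theorem fmb_main {n c : ℕ} (B : Finset (Fin n)) (h : Fin c → MvPolynomial (Fin n) ℂ)
    (j : Fin c) (Y A : Subalgebra ℂ (MvPolynomial (Fin n) ℂ))
    (hY : ∀ i, i ∉ B → X i ∈ Y) (hA : ∀ i ∈ B, X i ∈ A) (hh : ∀ k, k < j → h k ∈ A)
    (P : Fm n c) (hP : P.Below j) :
    (∑ i ∈ B, P.reads i + P.refs = 0 → P.value h ∈ Y) ∧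
    (1 ≤ ∑ i ∈ B, P.reads i + P.refs → ∃ α ∈ Y, ∃ β ∈ Y, ∃ G : Finset (MvPolynomial (Fin n) ℂ),
      (∀ g ∈ G, g ∈ Y) ∧ G.card ≤ 4 * (∑ i ∈ B, P.reads i + P.refs - 1) ∧
      ∃ Q ∈ A ⊔ Algebra.adjoin ℂ (G : Set (MvPolynomial (Fin n) ℂ)),
        P.value h = α * Q + β) := by
  classical
  induction P with
  | leaf i p =>
    have hL : ∑ i' ∈ B, (Fm.leaf i p : Fm n c).reads i' + (Fm.leaf i p : Fm n c).refs =
        if i ∈ B then 1 else 0 := by
      simp [Fm.reads, Fm.refs]
    rw [hL]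
    by_cases hi : i ∈ B
    · rw [if_pos hi]
      refine ⟨fun h0 => absurd h0 (by norm_num), fun _ => ?_⟩
      refine ⟨1, Y.one_mem, 0, Y.zero_mem, ∅, by simp, by simp,
        (Fm.leaf i p : Fm n c).value h, ?_, by ring⟩
      exact (le_sup_left : A ≤ _) (fmb_leaf_mem i p A (hA i hi))
    · rw [if_neg hi]
      refine ⟨fun _ => fmb_leaf_mem i p Y (hY i hi), fun h0 => absurd h0 (by norm_num)⟩
  | node F =>
    have hL : ∑ i' ∈ B, (Fm.node F : Fm n c).reads i' + (Fm.node F : Fm n c).refs = 1 := by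
      simp [Fm.reads, Fm.refs]
    rw [hL]
    refine ⟨fun h0 => absurd h0 (by norm_num), fun _ => ?_⟩
    refine ⟨1, Y.one_mem, 0, Y.zero_mem, ∅, by simp, by simp,
      (Fm.node F : Fm n c).value h, ?_, by ring⟩
    exact (le_sup_left : A ≤ _) (fmb_node_mem h A F (fun k hk => hh k (hP k hk)))
  | const a =>
    have hL : ∑ i' ∈ B, (Fm.const a : Fm n c).reads i' + (Fm.const a : Fm n c).refs = 0 := by
      simp [Fm.reads, Fm.refs]
    rw [hL]
    exact ⟨fun _ => Y.algebraMap_mem a, fun h0 => absurd h0 (by norm_num)⟩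
  | add P Q ihP ihQ =>
    obtain ⟨p1, p2⟩ := ihP hP.1
    obtain ⟨q1, q2⟩ := ihQ hP.2
    have hL : ∑ i' ∈ B, (Fm.add P Q).reads i' + (Fm.add P Q).refs =
        (∑ i' ∈ B, P.reads i' + P.refs) + (∑ i' ∈ B, Q.reads i' + Q.refs) := by
      simp only [Fm.reads, Fm.refs, Finset.sum_add_distrib]
      ring
    rw [hL]
    set L1 := ∑ i' ∈ B, P.reads i' + P.refs
    set L2 := ∑ i' ∈ B, Q.reads i' + Q.refs
    have hv : (Fm.add P Q).value h = P.value h + Q.value h := rfl
    rw [hv]
    refine ⟨fun h0 => Y.add_mem (p1 (by omega)) (q1 (by omega)), fun h1 => ?_⟩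
    rcases Nat.eq_zero_or_pos L1 with hL1 | hL1
    · have hP0 := p1 hL1
      obtain ⟨α, hα, β, hβ, G, hG, hGc, R, hR, hRe⟩ := q2 (by omega)
      refine ⟨α, hα, P.value h + β, Y.add_mem hP0 hβ, G, hG, by omega, R, hR, ?_⟩
      rw [hRe]; ring
    · rcases Nat.eq_zero_or_pos L2 with hL2 | hL2
      · have hQ0 := q1 hL2
        obtain ⟨α, hα, β, hβ, G, hG, hGc, R, hR, hRe⟩ := p2 (by omega)
        refine ⟨α, hα, β + Q.value h, Y.add_mem hβ hQ0, G, hG, by omega, R, hR, ?_⟩
        rw [hRe]; ring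
      · obtain ⟨α, hα, β, hβ, G, hG, hGc, R, hR, hRe⟩ := p2 (by omega)
        obtain ⟨α', hα', β', hβ', G', hG', hGc', R', hR', hRe'⟩ := q2 (by omega)
        refine ⟨1, Y.one_mem, 0, Y.zero_mem, (G ∪ G') ∪ {α, β, α', β'}, ?_, ?_,
          P.value h + Q.value h, ?_, by ring⟩
        · intro g hg
          rw [mem_union, mem_union] at hg
          rcases hg with (hg | hg) | hg
          · exact hG g hg
          · exact hG' g hg
          · simp only [mem_insert, mem_singleton] at hg
            rcases hg with rfl | rfl | rfl | rfl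
            · exact hα
            · exact hβ
            · exact hα'
            · exact hβ'
        · have h4 : ({α, β, α', β'} : Finset (MvPolynomial (Fin n) ℂ)).card ≤ 4 := card_le_four
          have h5 := card_union_le (G ∪ G') {α, β, α', β'}
          have h6 := card_union_le G G'
          omega
        · have hle : ∀ g ∈ (G ∪ G') ∪ {α, β, α', β'}, g ∈ A ⊔ Algebra.adjoin ℂ
              (((G ∪ G') ∪ {α, β, α', β'} : Finset (MvPolynomial (Fin n) ℂ)) :
                Set (MvPolynomial (Fin n) ℂ)) := fun g hg =>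
            (le_sup_right : Algebra.adjoin ℂ _ ≤ _) (Algebra.subset_adjoin (mem_coe.mpr hg))
          have hm1 : R ∈ A ⊔ Algebra.adjoin ℂ
              (((G ∪ G') ∪ {α, β, α', β'} : Finset (MvPolynomial (Fin n) ℂ)) :
                Set (MvPolynomial (Fin n) ℂ)) :=
            (sup_le_sup_left (Algebra.adjoin_mono (coe_subset.mpr
              (subset_union_left.trans subset_union_left))) A) hR
          have hm2 : R' ∈ A ⊔ Algebra.adjoin ℂ
              (((G ∪ G') ∪ {α, β, α', β'} : Finset (MvPolynomial (Fin n) ℂ)) :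
                Set (MvPolynomial (Fin n) ℂ)) :=
            (sup_le_sup_left (Algebra.adjoin_mono (coe_subset.mpr
              (subset_union_right.trans subset_union_left))) A) hR'
          rw [hRe, hRe']
          refine Subalgebra.add_mem _ (Subalgebra.add_mem _ (Subalgebra.mul_mem _
            (hle α ?_) hm1) (hle β ?_)) (Subalgebra.add_mem _ (Subalgebra.mul_mem _
            (hle α' ?_) hm2) (hle β' ?_)) <;> simp
  | mul P Q ihP ihQ =>
    obtain ⟨p1, p2⟩ := ihP hP.1
    obtain ⟨q1, q2⟩ := ihQ hP.2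
    have hL : ∑ i' ∈ B, (Fm.mul P Q).reads i' + (Fm.mul P Q).refs =
        (∑ i' ∈ B, P.reads i' + P.refs) + (∑ i' ∈ B, Q.reads i' + Q.refs) := by
      simp only [Fm.reads, Fm.refs, Finset.sum_add_distrib]
      ring
    rw [hL]
    set L1 := ∑ i' ∈ B, P.reads i' + P.refs
    set L2 := ∑ i' ∈ B, Q.reads i' + Q.refs
    have hv : (Fm.mul P Q).value h = P.value h * Q.value h := rfl
    rw [hv]
    refine ⟨fun h0 => Y.mul_mem (p1 (by omega)) (q1 (by omega)), fun h1 => ?_⟩
    rcases Nat.eq_zero_or_pos L1 with hL1 | hL1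
    · have hP0 := p1 hL1
      obtain ⟨α, hα, β, hβ, G, hG, hGc, R, hR, hRe⟩ := q2 (by omega)
      refine ⟨P.value h * α, Y.mul_mem hP0 hα, P.value h * β, Y.mul_mem hP0 hβ, G, hG, by omega,
        R, hR, ?_⟩
      rw [hRe]; ring
    · rcases Nat.eq_zero_or_pos L2 with hL2 | hL2
      · have hQ0 := q1 hL2
        obtain ⟨α, hα, β, hβ, G, hG, hGc, R, hR, hRe⟩ := p2 (by omega)
        refine ⟨Q.value h * α, Y.mul_mem hQ0 hα, Q.value h * β, Y.mul_mem hQ0 hβ, G, hG,
          by omega, R, hR, ?_⟩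
        rw [hRe]; ring
      · obtain ⟨α, hα, β, hβ, G, hG, hGc, R, hR, hRe⟩ := p2 (by omega)
        obtain ⟨α', hα', β', hβ', G', hG', hGc', R', hR', hRe'⟩ := q2 (by omega)
        refine ⟨1, Y.one_mem, 0, Y.zero_mem, (G ∪ G') ∪ {α, β, α', β'}, ?_, ?_,
          P.value h * Q.value h, ?_, by ring⟩
        · intro g hg
          rw [mem_union, mem_union] at hg
          rcases hg with (hg | hg) | hg
          · exact hG g hg
          · exact hG' g hg
          · simp only [mem_insert, mem_singleton] at hg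
            rcases hg with rfl | rfl | rfl | rfl
            · exact hα
            · exact hβ
            · exact hα'
            · exact hβ'
        · have h4 : ({α, β, α', β'} : Finset (MvPolynomial (Fin n) ℂ)).card ≤ 4 := card_le_four
          have h5 := card_union_le (G ∪ G') {α, β, α', β'}
          have h6 := card_union_le G G'
          omega
        · have hle : ∀ g ∈ (G ∪ G') ∪ {α, β, α', β'}, g ∈ A ⊔ Algebra.adjoin ℂ
              (((G ∪ G') ∪ {α, β, α', β'} : Finset (MvPolynomial (Fin n) ℂ)) :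
                Set (MvPolynomial (Fin n) ℂ)) := fun g hg =>
            (le_sup_right : Algebra.adjoin ℂ _ ≤ _) (Algebra.subset_adjoin (mem_coe.mpr hg))
          have hm1 : R ∈ A ⊔ Algebra.adjoin ℂ
              (((G ∪ G') ∪ {α, β, α', β'} : Finset (MvPolynomial (Fin n) ℂ)) :
                Set (MvPolynomial (Fin n) ℂ)) :=
            (sup_le_sup_left (Algebra.adjoin_mono (coe_subset.mpr
              (subset_union_left.trans subset_union_left))) A) hR
          have hm2 : R' ∈ A ⊔ Algebra.adjoin ℂ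
              (((G ∪ G') ∪ {α, β, α', β'} : Finset (MvPolynomial (Fin n) ℂ)) :
                Set (MvPolynomial (Fin n) ℂ)) :=
            (sup_le_sup_left (Algebra.adjoin_mono (coe_subset.mpr
              (subset_union_right.trans subset_union_left))) A) hR'
          rw [hRe, hRe']
          refine Subalgebra.mul_mem _ (Subalgebra.add_mem _ (Subalgebra.mul_mem _
            (hle α ?_) hm1) (hle β ?_)) (Subalgebra.add_mem _ (Subalgebra.mul_mem _
            (hle α' ?_) hm2) (hle β' ?_)) <;> simp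

theorem fm_bound {n c : ℕ} (B : Finset (Fin n)) (h : Fin c → MvPolynomial (Fin n) ℂ) (j : Fin c)
    (P : Fm n c) (hP : P.Below j) :
    ∃ G : Fin (4 * (∑ i ∈ B, P.reads i + P.refs) + 1) → MvPolynomial (Fin n) ℂ,
      (∀ k, Disjoint (G k).vars B) ∧
      P.value h ∈ Algebra.adjoin ℂ
        ((fun i => X i) '' (B : Set (Fin n)) ∪ h '' {k | k < j} ∪ Set.range G) := by
  classical
  let Y : Subalgebra ℂ (MvPolynomial (Fin n) ℂ) :=
    MvPolynomial.supported ℂ ((B : Set (Fin n))ᶜ)
  have hYm : ∀ g : MvPolynomial (Fin n) ℂ, g ∈ Y ↔ Disjoint g.vars B := by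
    intro g
    rw [MvPolynomial.mem_supported, Set.subset_compl_iff_disjoint_right, Finset.disjoint_coe]
  have hYX : ∀ i, i ∉ B → (X i : MvPolynomial (Fin n) ℂ) ∈ Y := by
    intro i hi
    exact Algebra.subset_adjoin ⟨i, by simpa using hi, rfl⟩
  obtain ⟨m1, m2⟩ := fmb_main B h j Y
    (Algebra.adjoin ℂ ((fun i => X i) '' (B : Set (Fin n)) ∪ h '' {k | k < j})) hYX
    (fun i hi => Algebra.subset_adjoin (Or.inl ⟨i, mem_coe.mpr hi, rfl⟩))
    (fun k hk => Algebra.subset_adjoin (Or.inr ⟨k, hk, rfl⟩)) P hP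
  have key : ∀ (S : Finset (MvPolynomial (Fin n) ℂ)), (∀ g ∈ S, g ∈ Y) →
      S.card ≤ 4 * (∑ i ∈ B, P.reads i + P.refs) + 1 →
      P.value h ∈ Algebra.adjoin ℂ ((fun i => X i) '' (B : Set (Fin n)) ∪ h '' {k | k < j}) ⊔
        Algebra.adjoin ℂ (S : Set (MvPolynomial (Fin n) ℂ)) →
      ∃ G : Fin (4 * (∑ i ∈ B, P.reads i + P.refs) + 1) → MvPolynomial (Fin n) ℂ,
      (∀ k, Disjoint (G k).vars B) ∧
      P.value h ∈ Algebra.adjoin ℂ
        ((fun i => X i) '' (B : Set (Fin n)) ∪ h '' {k | k < j} ∪ Set.range G) := by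
    intro S hS hSc hm
    obtain ⟨f, hf1, hf2⟩ := fmb_pad S hSc
    refine ⟨f, fun k => ?_, ?_⟩
    · rw [← hYm]
      rcases hf2 k with h1 | h1
      · exact hS _ h1
      · rw [h1]; exact Y.zero_mem
    · rw [Algebra.adjoin_union]
      refine (sup_le_sup_left (Algebra.adjoin_mono ?_) _) hm
      intro g hg
      obtain ⟨k, hk⟩ := hf1 g (mem_coe.mp hg)
      exact ⟨k, hk⟩
  rcases Nat.eq_zero_or_pos (∑ i ∈ B, P.reads i + P.refs) with h0 | h0
  · refine key {P.value h} ?_ ?_ ?_
    · intro g hg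
      rw [mem_singleton] at hg
      rw [hg]
      exact m1 h0
    · rw [card_singleton]; omega
    · exact (le_sup_right : Algebra.adjoin ℂ _ ≤ _) (Algebra.subset_adjoin (by simp))
  · obtain ⟨α, hα, β, hβ, G, hG, hGc, Q, hQ, hQe⟩ := m2 h0
    refine key (insert α (insert β G)) ?_ ?_ ?_
    · intro g hg
      rw [mem_insert, mem_insert] at hg
      rcases hg with rfl | rfl | hg
      · exact hα
      · exact hβ
      · exact hG g hg
    · have h1 := card_insert_le α (insert β G)
      have h2 := card_insert_le β G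
      omega
    · have hle : ∀ g ∈ insert α (insert β G), g ∈
          Algebra.adjoin ℂ ((fun i => X i) '' (B : Set (Fin n)) ∪ h '' {k | k < j}) ⊔
          Algebra.adjoin ℂ ((insert α (insert β G) : Finset (MvPolynomial (Fin n) ℂ)) :
            Set (MvPolynomial (Fin n) ℂ)) := fun g hg =>
        (le_sup_right : Algebra.adjoin ℂ _ ≤ _) (Algebra.subset_adjoin (mem_coe.mpr hg))
      have hm1 : Q ∈ Algebra.adjoin ℂ ((fun i => X i) '' (B : Set (Fin n)) ∪ h '' {k | k < j}) ⊔
          Algebra.adjoin ℂ ((insert α (insert β G) : Finset (MvPolynomial (Fin n) ℂ)) :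
            Set (MvPolynomial (Fin n) ℂ)) :=
        (sup_le_sup_left (Algebra.adjoin_mono (coe_subset.mpr
          ((subset_insert β G).trans (subset_insert α _)))) _) hQ
      rw [hQe]
      exact Subalgebra.add_mem _ (Subalgebra.mul_mem _ (hle α (by simp)) hm1)
        (hle β (by simp))

/-- Variables which are not read do not occur. -/
theorem fm_vars {n c : ℕ} (h : Fin c → MvPolynomial (Fin n) ℂ) (j : Fin c) (P : Fm n c)
    (hP : P.Below j) (i : Fin n) (hi : P.reads i = 0) (hh : ∀ k < j, i ∉ (h k).vars) :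
    i ∉ (P.value h).vars := by
  have hmain : P.value h ∈ MvPolynomial.supported ℂ (({i} : Set (Fin n))ᶜ) := by
    induction P with
    | leaf i' p =>
      have hne : i' ≠ i := by
        intro h1
        subst h1
        simp [Fm.reads] at hi
      exact fmb_leaf_mem i' p _ (Algebra.subset_adjoin ⟨i', by simpa using hne, rfl⟩)
    | node F =>
      refine fmb_node_mem h _ F (fun k hk => ?_)
      rw [MvPolynomial.mem_supported]
      intro i' hi'
      rw [Set.mem_compl_iff, Set.mem_singleton_iff]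
      rintro rfl
      exact hh k (hP k hk) (Finset.mem_coe.mp hi')
    | const a => exact Subalgebra.algebraMap_mem _ a
    | add P Q ihP ihQ =>
      have h1 : P.reads i + Q.reads i = 0 := hi
      exact Subalgebra.add_mem _ (ihP hP.1 (by omega)) (ihQ hP.2 (by omega))
    | mul P Q ihP ihQ =>
      have h1 : P.reads i + Q.reads i = 0 := hi
      exact Subalgebra.mul_mem _ (ihP hP.1 (by omega)) (ihQ hP.2 (by omega))
  intro hmem
  rw [MvPolynomial.mem_supported] at hmain
  exact (hmain (Finset.mem_coe.mpr hmem)) rfl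

end Pool.Agent.Helper16.KAL
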