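import Pool.Agent.Helper16.KAL.Defs
import Pool.Agent.Helper28.D4.Hit

/-!
# KAL-08: the explicit hitting set

* `hit_card`: `Finset.card_image_le`, cardinality of the product.
* `hit_bound`: every coordinate is `u + ∑ j, z_j * (i' * y) ^ e` with `0 ≤ u, z_j ≤ d`, `0 ≤ y ≤ d q`,
  `i' ≤ n`, `1 ≤ e ≤ q`; if `d = 0` everything is 0, otherwise `i' * y ≤ n d q` with `1 ≤ n d q`.
* `hit_hits`: compare `Helper28.D4.hit_hits`. For fixed cuts `c` let `σ = Fin q ⊕ (Fin (t+1) ⊕ Fin (t+1))` and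
  `F = aeval (pt n q t c (fun j => X (inl j)) (fun b => X (inr (inl b))) (fun b => X (inr (inr b)))) f`.
  `F ≠ 0` by the hypothesis; `degreeOf` of the coordinates is at most 1 in the variables
  `z_j`, `u_b`, and at most `q` in `y_b`, so by `Helper28.D4.degreeOf_aeval_le` the degree of `F` is at most
  `d` in `z_j`, `u_b` and at most `d * q` in `y_b`. Use
  `MvPolynomial.eq_zero_of_eval_zero_at_prod_finset` with the sets `{0..d}` and `{0..dq}`.
-/

set_option autoImplicit false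
set_option linter.unusedSectionVars false

namespace Pool.Agent.Helper16.KAL

open MvPolynomial Finset

theorem hit_card (n q t d : ℕ) : (hit n q t d).card ≤
    (n + 1) ^ t * (d + 1) ^ q * ((d * q + 1) * (d + 1)) ^ (t + 1) := by
  unfold hit
  refine Finset.card_image_le.trans (le_of_eq ?_)
  rw [Finset.card_univ, Fintype.card_prod, Fintype.card_prod, Fintype.card_prod]
  simp only [Fintype.card_fun, Fintype.card_fin]
  rw [mul_pow]
  ring

theorem hit_bound (n q t d : ℕ) : ∀ a ∈ hit n q t d, ∀ i,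
    0 ≤ a i ∧ a i ≤ d + q * d * (n * d * q) ^ q := by
  intro a ha i
  unfold hit at ha
  rw [Finset.mem_image] at ha
  obtain ⟨⟨c, z, y, u⟩, _, rfl⟩ := ha
  have hi : (((i : ℕ) + 1 : ℕ) : ℤ) ≤ n := by exact_mod_cast i.2
  have hi0 : (0 : ℤ) ≤ (((i : ℕ) + 1 : ℕ) : ℤ) := by positivity
  set b := blk c i with hb
  have hy : (((y b : Fin (d * q + 1)) : ℕ) : ℤ) ≤ d * q := by
    exact_mod_cast Nat.lt_succ_iff.1 (y b).2
  have hy0 : (0 : ℤ) ≤ (((y b : Fin (d * q + 1)) : ℕ) : ℤ) := by positivity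
  have hu : (((u b : Fin (d + 1)) : ℕ) : ℤ) ≤ d := by
    exact_mod_cast Nat.lt_succ_iff.1 (u b).2
  have hu0 : (0 : ℤ) ≤ (((u b : Fin (d + 1)) : ℕ) : ℤ) := by positivity
  have hterm : ∀ j : Fin q, 0 ≤ (((z j : Fin (d + 1)) : ℕ) : ℤ) *
      ((((i : ℕ) + 1 : ℕ) : ℤ) * (((y b : Fin (d * q + 1)) : ℕ) : ℤ)) ^ ((j : ℕ) + 1) ∧
      (((z j : Fin (d + 1)) : ℕ) : ℤ) *
      ((((i : ℕ) + 1 : ℕ) : ℤ) * (((y b : Fin (d * q + 1)) : ℕ) : ℤ)) ^ ((j : ℕ) + 1) ≤
      d * ((n : ℤ) * d * q) ^ q := by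
    intro j
    have hz : (((z j : Fin (d + 1)) : ℕ) : ℤ) ≤ d := by
      exact_mod_cast Nat.lt_succ_iff.1 (z j).2
    have hz0 : (0 : ℤ) ≤ (((z j : Fin (d + 1)) : ℕ) : ℤ) := by positivity
    refine ⟨by positivity, ?_⟩
    rcases Nat.eq_zero_or_pos d with hd | hd
    · have h1 : (((z j : Fin (d + 1)) : ℕ) : ℤ) = 0 := by
        have h2 : (d : ℤ) = 0 := by exact_mod_cast hd
        rw [h2] at hz
        exact le_antisymm hz hz0
      rw [h1, zero_mul]
      positivity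
    · have hq : 0 < q := j.pos
      have hn : 0 < n := i.pos
      have h1 : (1 : ℤ) ≤ (n : ℤ) * d * q := by
        have : 0 < n * d * q := Nat.mul_pos (Nat.mul_pos hn hd) hq
        exact_mod_cast this
      have h2 : (((i : ℕ) + 1 : ℕ) : ℤ) * (((y b : Fin (d * q + 1)) : ℕ) : ℤ) ≤
          (n : ℤ) * d * q := by
        calc (((i : ℕ) + 1 : ℕ) : ℤ) * (((y b : Fin (d * q + 1)) : ℕ) : ℤ) ≤ n * (d * q) :=
              mul_le_mul hi hy hy0 (by positivity)
          _ = (n : ℤ) * d * q := by ring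
      have h3 : ((((i : ℕ) + 1 : ℕ) : ℤ) * (((y b : Fin (d * q + 1)) : ℕ) : ℤ)) ^ ((j : ℕ) + 1) ≤
          ((n : ℤ) * d * q) ^ q :=
        (pow_le_pow_left₀ (by positivity) h2 _).trans (pow_le_pow_right₀ h1 j.2)
      exact mul_le_mul hz h3 (by positivity) (by positivity)
  change 0 ≤ (((u b : Fin (d + 1)) : ℕ) : ℤ) + ∑ j : Fin q, (((z j : Fin (d + 1)) : ℕ) : ℤ) *
      ((((i : ℕ) + 1 : ℕ) : ℤ) * (((y b : Fin (d * q + 1)) : ℕ) : ℤ)) ^ ((j : ℕ) + 1) ∧
    (((u b : Fin (d + 1)) : ℕ) : ℤ) + ∑ j : Fin q, (((z j : Fin (d + 1)) : ℕ) : ℤ) *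
      ((((i : ℕ) + 1 : ℕ) : ℤ) * (((y b : Fin (d * q + 1)) : ℕ) : ℤ)) ^ ((j : ℕ) + 1) ≤
      (d : ℤ) + q * d * (n * d * q) ^ q
  constructor
  · exact add_nonneg hu0 (Finset.sum_nonneg fun j _ => (hterm j).1)
  · have h1 := Finset.sum_le_sum (s := (Finset.univ : Finset (Fin q)))
      (fun j _ => (hterm j).2)
    rw [Finset.sum_const, Finset.card_univ, Fintype.card_fin, nsmul_eq_mul] at h1
    have h2 : (q : ℤ) * (d * ((n : ℤ) * d * q) ^ q) = q * d * (n * d * q) ^ q := by ring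
    rw [h2] at h1
    exact add_le_add hu h1

theorem map_pt {n q t : ℕ} {R S : Type*} [CommRing R] [CommRing S] (φ : R →+* S)
    (c : Fin t → Fin (n + 1)) (z : Fin q → R) (y u : Fin (t + 1) → R) (i : Fin n) :
    φ (pt n q t c z y u i) =
      pt n q t c (fun j => φ (z j)) (fun b => φ (y b)) (fun b => φ (u b)) i := by
  unfold pt
  rw [map_add, map_sum]
  congr 1
  refine Finset.sum_congr rfl fun j _ => ?_
  rw [map_mul, map_pow, map_mul, map_natCast]

private lemma h43_degX {σ : Type*} {v w : σ} (h : w ≠ v) :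
    degreeOf v (X w : MvPolynomial σ ℂ) = 0 := by
  classical
  rw [degreeOf_X, if_neg]
  exact fun h' => h h'.symm

private lemma h43_deg_term {σ : Type*} (v a b : σ) (m j A B : ℕ)
    (ha : degreeOf v (X a : MvPolynomial σ ℂ) ≤ A)
    (hb : degreeOf v (X b : MvPolynomial σ ℂ) ≤ B) :
    degreeOf v ((X a : MvPolynomial σ ℂ) * ((m : MvPolynomial σ ℂ) * X b) ^ j) ≤ A + j * B := by
  refine (degreeOf_mul_le v _ _).trans (Nat.add_le_add ha ?_)
  refine (degreeOf_pow_le v _ _).trans (Nat.mul_le_mul_left _ ?_)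
  refine (degreeOf_mul_le v _ _).trans ?_
  have h1 : (m : MvPolynomial σ ℂ) = C (m : ℂ) := by simp
  rw [h1, degreeOf_C, zero_add]
  exact hb

theorem hit_hits {n q t d : ℕ} (f : MvPolynomial (Fin n) ℂ) (hd : f.totalDegree ≤ d)
    (c : Fin t → Fin (n + 1))
    (h : ∃ (z : Fin q → ℂ) (y u : Fin (t + 1) → ℂ), eval (pt n q t c z y u) f ≠ 0) :
    ∃ a ∈ hit n q t d, eval (fun i => ((a i : ℤ) : ℂ)) f ≠ 0 := by
  classical
  obtain ⟨z, y, u, hzyu⟩ := h
  let σ := Fin q ⊕ (Fin (t + 1) ⊕ Fin (t + 1))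
  let φ : Fin n → MvPolynomial σ ℂ := pt n q t c (fun j => X (Sum.inl j))
    (fun b => X (Sum.inr (Sum.inl b))) (fun b => X (Sum.inr (Sum.inr b)))
  have hev : ∀ x : σ → ℂ, MvPolynomial.eval x (aeval φ f) =
      MvPolynomial.eval (pt n q t c (fun j => x (Sum.inl j)) (fun b => x (Sum.inr (Sum.inl b)))
        (fun b => x (Sum.inr (Sum.inr b)))) f := by
    intro x
    rw [Helper28.D4.eval_aeval_comp]
    congr 2
    funext i
    change MvPolynomial.eval x (pt n q t c _ _ _ i) = _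
    rw [map_pt]
    simp only [eval_X]
  have hF0 : aeval φ f ≠ 0 := by
    intro hcon
    apply hzyu
    have h1 := hev (Sum.elim z (Sum.elim y u))
    rw [hcon, map_zero] at h1
    rw [← h1.symm]
    congr 1
  -- degrees of the coordinates
  have hdeg : ∀ (v : σ) (A B U : ℕ), (∀ j, degreeOf v (X (Sum.inl j) : MvPolynomial σ ℂ) ≤ A) →
      (∀ b, degreeOf v (X (Sum.inr (Sum.inl b)) : MvPolynomial σ ℂ) ≤ B) →
      (∀ b, degreeOf v (X (Sum.inr (Sum.inr b)) : MvPolynomial σ ℂ) ≤ U) →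
      ∀ i, degreeOf v (φ i) ≤ max U (A + q * B) := by
    intro v A B U hA hB hU i
    change degreeOf v ((X (Sum.inr (Sum.inr (blk c i))) : MvPolynomial σ ℂ) +
      ∑ j : Fin q, (X (Sum.inl j) : MvPolynomial σ ℂ) *
        (((((i : ℕ) + 1 : ℕ) : MvPolynomial σ ℂ)) * X (Sum.inr (Sum.inl (blk c i)))) ^
          ((j : ℕ) + 1)) ≤ _
    refine (degreeOf_add_le v _ _).trans (max_le_max (hU _) ?_)
    refine (degreeOf_sum_le v _ _).trans ?_
    apply Finset.sup_le
    intro j _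
    refine (h43_deg_term v _ _ _ _ A B (hA j) (hB _)).trans ?_
    exact Nat.add_le_add_left (Nat.mul_le_mul_right _ j.2) _
  by_contra hcon
  push Not at hcon
  apply hF0
  let R : ℕ → Finset ℂ := fun N => (Finset.range N).image (fun k : ℕ => (k : ℂ))
  have hR : ∀ N, (R N).card = N := by
    intro N
    change ((Finset.range N).image (fun k : ℕ => (k : ℂ))).card = N
    rw [Finset.card_image_of_injective _ Nat.cast_injective, Finset.card_range]
  have hRm : ∀ N x, x ∈ R (N + 1) → ∃ k : Fin (N + 1), (((k : Fin (N + 1)) : ℕ) : ℂ) = x := by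
    intro N x hx
    obtain ⟨k, hk, hkx⟩ := Finset.mem_image.1 hx
    exact ⟨⟨k, Finset.mem_range.1 hk⟩, hkx⟩
  let S : σ → Finset ℂ := Sum.elim (fun _ => R (d + 1))
    (Sum.elim (fun _ => R (d * q + 1)) (fun _ => R (d + 1)))
  have hne1 : ∀ b b0 : Fin (t + 1), (Sum.inr (Sum.inr b) : σ) ≠ Sum.inr (Sum.inl b0) := by
    intro b b0 h
    cases h
  have hne2 : ∀ b b0 : Fin (t + 1), (Sum.inr (Sum.inl b) : σ) ≠ Sum.inr (Sum.inr b0) := by
    intro b b0 h
    cases h
  apply MvPolynomial.eq_zero_of_eval_zero_at_prod_finset (aeval φ f) S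
  · intro v
    rcases v with j0 | b0 | b0
    · change degreeOf _ _ < (R (d + 1)).card
      rw [hR]
      have h1 := Helper28.D4.degreeOf_aeval_le φ (Sum.inl j0) 1 d (fun i => by
        refine (hdeg (Sum.inl j0) 1 0 0 (fun j => Helper28.D4.degreeOf_X_le _ _)
          (fun b => (h43_degX (by simp)).le) (fun b => (h43_degX (by simp)).le) i).trans ?_
        simp) f hd
      omega
    · change degreeOf _ _ < (R (d * q + 1)).card
      rw [hR]
      have h1 := Helper28.D4.degreeOf_aeval_le φ (Sum.inr (Sum.inl b0)) q d (fun i => by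
        refine (hdeg (Sum.inr (Sum.inl b0)) 0 1 0 (fun j => (h43_degX (by simp)).le)
          (fun b => Helper28.D4.degreeOf_X_le _ _) (fun b => (h43_degX (hne1 b b0)).le) i).trans ?_
        simp) f hd
      omega
    · change degreeOf _ _ < (R (d + 1)).card
      rw [hR]
      have h1 := Helper28.D4.degreeOf_aeval_le φ (Sum.inr (Sum.inr b0)) 1 d (fun i => by
        refine (hdeg (Sum.inr (Sum.inr b0)) 0 0 1 (fun j => (h43_degX (by simp)).le)
          (fun b => (h43_degX (hne2 b b0)).le) (fun b => Helper28.D4.degreeOf_X_le _ _) i).trans ?_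
        simp) f hd
      omega
  · intro x hx
    have h1 : ∀ j, ∃ k : Fin (d + 1), (((k : Fin (d + 1)) : ℕ) : ℂ) = x (Sum.inl j) :=
      fun j => hRm d _ (hx (Sum.inl j))
    have h2 : ∀ b, ∃ k : Fin (d * q + 1), (((k : Fin (d * q + 1)) : ℕ) : ℂ) =
        x (Sum.inr (Sum.inl b)) := fun b => hRm (d * q) _ (hx (Sum.inr (Sum.inl b)))
    have h3 : ∀ b, ∃ k : Fin (d + 1), (((k : Fin (d + 1)) : ℕ) : ℂ) =
        x (Sum.inr (Sum.inr b)) := fun b => hRm d _ (hx (Sum.inr (Sum.inr b)))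
    choose z1 hz1 using h1
    choose y1 hy1 using h2
    choose u1 hu1 using h3
    rw [hev]
    have h4 := hcon (pt n q t c (fun j => (((z1 j : Fin (d + 1)) : ℕ) : ℤ))
      (fun b => (((y1 b : Fin (d * q + 1)) : ℕ) : ℤ))
      (fun b => (((u1 b : Fin (d + 1)) : ℕ) : ℤ)))
      (Finset.mem_image.2 ⟨(c, z1, y1, u1), Finset.mem_univ _, rfl⟩)
    rw [← h4]
    congr 2
    funext i
    have h5 := map_pt (Int.castRingHom ℂ) c (fun j => (((z1 j : Fin (d + 1)) : ℕ) : ℤ))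
      (fun b => (((y1 b : Fin (d * q + 1)) : ℕ) : ℤ))
      (fun b => (((u1 b : Fin (d + 1)) : ℕ) : ℤ)) i
    simp only [eq_intCast, Int.cast_natCast] at h5
    rw [h5]
    simp only [hz1, hy1, hu1]

end Pool.Agent.Helper16.KAL
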