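import Pool.Agent.Helper72.SF.Key

set_option autoImplicit false
set_option linter.unusedSectionVars false

/-!
# KAL-07: the hybrid argument

`step k`: for every `k ≤ t + 1` there are `y u : Fin (t + 1) → ℂ` and `a : Fin n → ℂ` such that
`aeval (fun i => if (blk c i : ℕ) < k then C (u (blk c i)) + lin q (y (blk c i)) i else C (a i)) f ≠ 0`.
Induction on `k`. `k = 0`: a point `a` with `eval a f ≠ 0`. Step: let `b = k` (as an element of
`Fin (t + 1)`) and `B = part f c b`; only the variables of `f` matter.
If `B.card ≤ 1`: put `y b = 0`, `u b = a v` for `B = {v}` (any value if `B` is empty); `lin q 0 i = 0`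
since the exponents are positive, so the substitution is unchanged on `f.vars`. Otherwise apply
`Helper72.SF.key` with the current substitution, and put `u b = 0`, `y b = y`. Finally `k = t + 1`.
-/

namespace Pool.Agent.Helper16.KAL

open MvPolynomial Finset

theorem aeval_congr_vars {n : ℕ} {R : Type} [CommRing R] [Algebra ℂ R]
    {f : MvPolynomial (Fin n) ℂ} {φ ψ : Fin n → R} (h : ∀ i ∈ f.vars, φ i = ψ i) :
    aeval φ f = aeval ψ f := by
  rw [aeval_def, aeval_def, ← coe_eval₂Hom, ← coe_eval₂Hom]
  exact eval₂Hom_congr' rfl (fun i hi _ => h i hi) rfl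

theorem lin_zero {n : ℕ} (q : ℕ) (i : Fin n) : lin q 0 i = 0 := by
  rw [lin]
  refine Finset.sum_eq_zero fun j _ => ?_
  simp

theorem aeval_part {n : ℕ} {S : Type} [CommRing S] [Algebra ℂ S] (B : Finset (Fin n))
    (y : Fin n → S) (ψ : B → S) (f : MvPolynomial (Fin n) ℂ) :
    aeval ψ (Helper72.SF.part B y f) =
      aeval (fun i => if h : i ∈ B then ψ ⟨i, h⟩ else y i) f := by
  have h1 : ((aeval ψ : MvPolynomial B S →ₐ[S] S).restrictScalars ℂ).comp
      (Helper72.SF.part B y) = aeval (fun i => if h : i ∈ B then ψ ⟨i, h⟩ else y i) := by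
    apply MvPolynomial.algHom_ext
    intro i
    simp only [AlgHom.comp_apply, AlgHom.restrictScalars_apply, Helper72.SF.part, aeval_X]
    split_ifs with h
    · rw [aeval_X]
    · rw [aeval_C]
      rfl
  rw [← h1]
  rfl

theorem hybrid {n q t : ℕ} (f : MvPolynomial (Fin n) ℂ) (hf : f ≠ 0) (c : Fin t → Fin (n + 1))
    (h : ∀ b, (part f c b).card ≤ 1 ∨
      ∃ ρ, KB (part f c b) ρ f ∧ ρ + (part f c b).card ≤ q) :
    ∃ (z : Fin q → ℂ) (y u : Fin (t + 1) → ℂ), eval (pt n q t c z y u) f ≠ 0 := by
  classical
  have step : ∀ k, k ≤ t + 1 → ∃ (y u : Fin (t + 1) → ℂ) (a : Fin n → ℂ),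
      aeval (fun i => if (blk c i : ℕ) < k then C (u (blk c i)) + lin q (y (blk c i)) i
        else C (a i)) f ≠ 0 := by
    intro k
    induction k with
    | zero =>
      intro _
      obtain ⟨a, ha⟩ : ∃ a : Fin n → ℂ, eval a f ≠ 0 := by
        by_contra hcon
        push Not at hcon
        exact hf (MvPolynomial.funext fun a => by rw [hcon a, map_zero])
      refine ⟨0, 0, a, ?_⟩
      simp only [Nat.not_lt_zero, if_false]
      intro h0
      apply ha
      have h1 : eval (0 : Fin q → ℂ) (aeval (fun i => (C (a i) : MvPolynomial (Fin q) ℂ)) f) =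
          eval a f := by
        have h2 : ((aeval (0 : Fin q → ℂ) : MvPolynomial (Fin q) ℂ →ₐ[ℂ] ℂ).comp
            (aeval (fun i => (C (a i) : MvPolynomial (Fin q) ℂ)))) = aeval a := by
          apply MvPolynomial.algHom_ext
          intro i
          simp
        have h3 := DFunLike.congr_fun h2 f
        simpa [aeval_eq_eval] using h3
      rw [← h1, h0, map_zero]
    | succ k ih =>
      intro hk
      obtain ⟨y, u, a, hya⟩ := ih (by omega)
      let b : Fin (t + 1) := ⟨k, by omega⟩
      set B := part f c b with hB
      have hmem : ∀ i ∈ f.vars, i ∈ B ↔ (blk c i : ℕ) = k := by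
        intro i hi
        rw [hB, part, Finset.mem_filter]
        constructor
        · rintro ⟨_, h1⟩
          rw [h1]
        · intro h1
          exact ⟨hi, Fin.ext h1⟩
      set φ : Fin n → MvPolynomial (Fin q) ℂ := fun i =>
        if (blk c i : ℕ) < k then C (u (blk c i)) + lin q (y (blk c i)) i else C (a i) with hφ
      rcases h b with hc | ⟨ρ, hKB, hq⟩
      · have hv : ∃ val : ℂ, ∀ i ∈ B, a i = val := by
          rcases B.eq_empty_or_nonempty with h0 | ⟨v, hv⟩
          · exact ⟨0, fun i hi => by rw [h0] at hi; exact absurd hi (Finset.notMem_empty i)⟩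
          · exact ⟨a v, fun i hi => by rw [Finset.card_le_one.1 hc i hi v hv]⟩
        obtain ⟨val, hval⟩ := hv
        refine ⟨Function.update y b 0, Function.update u b val, a, ?_⟩
        rw [← aeval_congr_vars (φ := φ)]
        · exact hya
        · intro i hi
          simp only [hφ]
          by_cases h1 : (blk c i : ℕ) < k
          · have h2 : blk c i ≠ b := fun h => by rw [h] at h1; exact lt_irrefl _ h1
            rw [if_pos h1, if_pos (by omega), Function.update_of_ne h2, Function.update_of_ne h2]
          · by_cases h3 : (blk c i : ℕ) = k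
            · have h4 : blk c i = b := Fin.ext h3
              rw [if_neg h1, if_pos (by omega), h4, Function.update_self, Function.update_self,
                lin_zero, add_zero, hval i ((hmem i hi).2 h3)]
            · rw [if_neg h1, if_neg (by omega)]
      · have hne : Helper72.SF.part B φ f ≠ 0 := by
          intro h0
          apply hya
          have h1 := aeval_part B φ (fun i : B => φ i) f
          have h2 : (fun i => if h : i ∈ B then φ ((⟨i, h⟩ : B) : Fin n) else φ i) = φ := by
            funext i
            by_cases h : i ∈ B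
            · rw [dif_pos h]
            · rw [dif_neg h]
          rw [h0, map_zero, h2] at h1
          exact h1.symm
        obtain ⟨y0, hy0⟩ := Helper72.SF.key (Helper72.SF.KB.of_kal hKB) hq φ hne
        refine ⟨Function.update y b y0, Function.update u b 0, a, ?_⟩
        rw [aeval_part] at hy0
        rw [← aeval_congr_vars (φ := fun i => if h : i ∈ B then lin q y0 i else φ i)]
        · exact hy0
        · intro i hi
          by_cases h1 : (blk c i : ℕ) = k
          · have h4 : blk c i = b := Fin.ext h1
            rw [dif_pos ((hmem i hi).2 h1), if_pos (by omega), h4, Function.update_self,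
              Function.update_self, C_0, zero_add]
          · rw [dif_neg (fun h => h1 ((hmem i hi).1 h))]
            simp only [hφ]
            by_cases h3 : (blk c i : ℕ) < k
            · have h2 : blk c i ≠ b := fun h => by rw [h] at h3; exact lt_irrefl _ h3
              rw [if_pos h3, if_pos (by omega), Function.update_of_ne h2,
                Function.update_of_ne h2]
            · rw [if_neg h3, if_neg (by omega)]
  obtain ⟨y, u, a, hya⟩ := step (t + 1) le_rfl
  obtain ⟨z, hz⟩ : ∃ z : Fin q → ℂ, eval z (aeval (fun i => if (blk c i : ℕ) < t + 1 then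
      C (u (blk c i)) + lin q (y (blk c i)) i else C (a i)) f) ≠ 0 := by
    by_contra hcon
    push Not at hcon
    exact hya (MvPolynomial.funext fun a => by rw [hcon a, map_zero])
  refine ⟨z, y, u, ?_⟩
  convert hz using 1
  have h2 : ((aeval z : MvPolynomial (Fin q) ℂ →ₐ[ℂ] ℂ).comp
      (aeval (fun i => if (blk c i : ℕ) < t + 1 then
      C (u (blk c i)) + lin q (y (blk c i)) i else C (a i)))) = aeval (pt n q t c z y u) := by
    apply MvPolynomial.algHom_ext
    intro i
    rw [AlgHom.comp_apply, aeval_X, aeval_X, if_pos (blk c i).2, map_add, aeval_C, lin, map_sum,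
      pt]
    congr 1
    refine Finset.sum_congr rfl fun j _ => ?_
    rw [map_mul, aeval_C, aeval_X, mul_comm]
    rfl
  have h3 := DFunLike.congr_fun h2 f
  simpa [aeval_eq_eval] using h3.symm

end Pool.Agent.Helper16.KAL
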