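import Pool.Agent.Helper16.KAL.Defs

set_option autoImplicit false
set_option linter.unusedSectionVars false

/-!
# KAL-13: programs of width `w`

`Y` = polynomials without the variables of `B`. By induction on the list `L`, with
`ℓ = ∑ i ∈ B, progReads L i`: `prodM L = M₀ * Q` where all entries of `M₀` are in `Y` and all entries of `Q` are in
`adjoin (X '' B ∪ G)`, `G` a finite set of at most `w ^ 2 * ℓ` elements of `Y`. (`L = []`: `M₀ = Q = 1`.
New first layer without variable in `B`: multiply `M₀`. New first layer `A` with variable in `B`: the new `Q` is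
`A * (M₀ * Q)`, the new `M₀` is `1`, and the `w ^ 2` entries of the old `M₀` go into `G`.) Put the entries of the
last `M₀` into `G` as well: `w ^ 2 * (ℓ + 1)` elements. The last condition of `KB` with `M = ρ`: a map
`Fin (ρ + 1) → Fin ρ` is not injective, independent families are (`AlgebraicIndependent.injective`).
`prog_vars`: the entries of `prodM L` involve only variables of layers (induction;
`MvPolynomial.vars_add_subset`, `vars_mul`, `vars_sum_subset`).
-/

namespace Pool.Agent.Helper16.KAL

open MvPolynomial Finset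

theorem aeval_mem' {n : ℕ} (S : Subalgebra ℂ (MvPolynomial (Fin n) ℂ))
    (x : MvPolynomial (Fin n) ℂ) (hx : x ∈ S) (p : Polynomial ℂ) : Polynomial.aeval x p ∈ S :=
  (Algebra.adjoin_le (Set.singleton_subset_iff.2 hx))
    (Polynomial.aeval_mem_adjoin_singleton (p := p) ℂ x)

theorem mul_mem' {n w : ℕ} (S : Subalgebra ℂ (MvPolynomial (Fin n) ℂ))
    (A B : Matrix (Fin w) (Fin w) (MvPolynomial (Fin n) ℂ)) (hA : ∀ i j, A i j ∈ S)
    (hB : ∀ i j, B i j ∈ S) (i j : Fin w) : (A * B) i j ∈ S := by
  rw [Matrix.mul_apply]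
  exact S.sum_mem fun k _ => S.mul_mem (hA i k) (hB k j)

theorem one_mem' {n w : ℕ} (S : Subalgebra ℂ (MvPolynomial (Fin n) ℂ)) (i j : Fin w) :
    (1 : Matrix (Fin w) (Fin w) (MvPolynomial (Fin n) ℂ)) i j ∈ S := by
  rw [Matrix.one_apply]
  split_ifs
  · exact S.one_mem
  · exact S.zero_mem

theorem prog_key {n w : ℕ} (B : Finset (Fin n))
    (L : List (Fin n × Matrix (Fin w) (Fin w) (Polynomial ℂ))) :
    ∃ (M₀ Q : Matrix (Fin w) (Fin w) (MvPolynomial (Fin n) ℂ))
      (G : Finset (MvPolynomial (Fin n) ℂ)),
      prodM L = M₀ * Q ∧ (∀ i j, M₀ i j ∈ supported ℂ ((B : Set (Fin n))ᶜ)) ∧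
      (∀ g ∈ G, g ∈ supported ℂ ((B : Set (Fin n))ᶜ)) ∧
      G.card ≤ w ^ 2 * ∑ i ∈ B, progReads L i ∧
      ∀ i j, Q i j ∈ Algebra.adjoin ℂ ((fun i => X i) '' (B : Set (Fin n)) ∪
        (G : Set (MvPolynomial (Fin n) ℂ))) := by
  classical
  induction L with
  | nil =>
    exact ⟨1, 1, ∅, by simp [prodM], one_mem' _, by simp, by simp, one_mem' _⟩
  | cons l L ih =>
    obtain ⟨M₀, Q, G, h1, h2, h3, h4, h5⟩ := ih
    have hp : prodM (l :: L) = l.2.map
        (fun p => Polynomial.aeval (X l.1 : MvPolynomial (Fin n) ℂ) p) * prodM L := by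
      simp [prodM]
    have hr : ∀ i, progReads (l :: L) i = progReads L i + if l.1 = i then 1 else 0 := by
      intro i
      simp [progReads, List.count_cons]
    by_cases hl : l.1 ∈ B
    · have hs : ∑ i ∈ B, progReads (l :: L) i = ∑ i ∈ B, progReads L i + 1 := by
        rw [Finset.sum_congr rfl fun i _ => hr i, Finset.sum_add_distrib]
        simp [hl]
      refine ⟨1, l.2.map (fun p => Polynomial.aeval (X l.1 : MvPolynomial (Fin n) ℂ) p) *
        (M₀ * Q), G ∪ univ.image (fun p : Fin w × Fin w => M₀ p.1 p.2), ?_, one_mem' _, ?_, ?_, ?_⟩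
      · rw [hp, h1, Matrix.one_mul]
      · intro g hg
        rw [Finset.mem_union, Finset.mem_image] at hg
        rcases hg with hg | ⟨p, _, rfl⟩
        · exact h3 g hg
        · exact h2 _ _
      · rw [hs]
        refine (Finset.card_union_le _ _).trans ?_
        have : (univ.image (fun p : Fin w × Fin w => M₀ p.1 p.2)).card ≤ w ^ 2 := by
          refine Finset.card_image_le.trans ?_
          simp [pow_two]
        rw [mul_add, mul_one]
        exact add_le_add h4 this
      · refine mul_mem' _ _ _ ?_ (mul_mem' _ _ _ ?_ ?_)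
        · intro i j
          rw [Matrix.map_apply]
          exact aeval_mem' _ _ (Algebra.subset_adjoin (Or.inl ⟨l.1, hl, rfl⟩)) _
        · intro i j
          refine Algebra.subset_adjoin (Or.inr ?_)
          rw [Finset.mem_coe, Finset.mem_union, Finset.mem_image]
          exact Or.inr ⟨(i, j), Finset.mem_univ _, rfl⟩
        · intro i j
          refine Algebra.adjoin_mono ?_ (h5 i j)
          refine Set.union_subset_union_right _ ?_
          rw [Finset.coe_subset]
          exact Finset.subset_union_left
    · refine ⟨l.2.map (fun p => Polynomial.aeval (X l.1 : MvPolynomial (Fin n) ℂ) p) * M₀, Q, G,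
        ?_, ?_, h3, ?_, h5⟩
      · rw [hp, h1, Matrix.mul_assoc]
      · refine mul_mem' _ _ _ ?_ h2
        intro i j
        rw [Matrix.map_apply]
        refine aeval_mem' _ _ ?_ _
        rw [X_mem_supported]
        simpa using hl
      · refine h4.trans (Nat.mul_le_mul_left _ (Finset.sum_le_sum fun i _ => ?_))
        rw [hr]
        exact Nat.le_add_right _ _

theorem kb_prog {n w : ℕ} (L : List (Fin n × Matrix (Fin w) (Fin w) (Polynomial ℂ)))
    (a b : Fin w → ℂ) (B : Finset (Fin n)) :
    KB B (w ^ 2 * (∑ i ∈ B, progReads L i + 1)) (progVal L a b) := by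
  classical
  obtain ⟨M₀, Q, G, h1, h2, h3, h4, h5⟩ := prog_key B L
  set G' : Finset (MvPolynomial (Fin n) ℂ) :=
    G ∪ univ.image (fun p : Fin w × Fin w => M₀ p.1 p.2) with hG'
  have hcard : G'.card ≤ w ^ 2 * (∑ i ∈ B, progReads L i + 1) := by
    refine (Finset.card_union_le _ _).trans ?_
    have : (univ.image (fun p : Fin w × Fin w => M₀ p.1 p.2)).card ≤ w ^ 2 := by
      refine Finset.card_image_le.trans ?_
      simp [pow_two]
    rw [mul_add, mul_one]
    exact add_le_add h4 this
  have hmem : ∀ g ∈ G', g ∈ supported ℂ ((B : Set (Fin n))ᶜ) := by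
    intro g hg
    rw [hG', Finset.mem_union, Finset.mem_image] at hg
    rcases hg with hg | ⟨p, _, rfl⟩
    · exact h3 g hg
    · exact h2 _ _
  have hrange : Set.range (fun k : Fin G'.card => (G'.equivFin.symm k : MvPolynomial (Fin n) ℂ))
      = (G' : Set (MvPolynomial (Fin n) ℂ)) := by
    ext g
    constructor
    · rintro ⟨k, rfl⟩
      exact (G'.equivFin.symm k).2
    · intro hg
      exact ⟨G'.equivFin ⟨g, hg⟩, by simp⟩
  refine ⟨G'.card, fun k => (G'.equivFin.symm k : MvPolynomial (Fin n) ℂ), ?_, ?_, ?_⟩
  · intro k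
    have h := hmem _ (G'.equivFin.symm k).2
    rw [mem_supported] at h
    rw [Finset.disjoint_left]
    intro i hi hB
    exact h (Finset.mem_coe.2 hi) (Finset.mem_coe.2 hB)
  · rw [hrange]
    unfold progVal
    refine Subalgebra.sum_mem _ fun i _ => Subalgebra.sum_mem _ fun j _ => ?_
    refine Subalgebra.mul_mem _ (Subalgebra.mul_mem _ (Subalgebra.algebraMap_mem _ (a i)) ?_)
      (Subalgebra.algebraMap_mem _ (b j))
    rw [h1]
    refine mul_mem' _ _ _ ?_ ?_ i j
    · intro i j
      refine Algebra.subset_adjoin (Or.inr ?_)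
      rw [Finset.mem_coe, hG', Finset.mem_union, Finset.mem_image]
      exact Or.inr ⟨(i, j), Finset.mem_univ _, rfl⟩
    · intro i j
      refine Algebra.adjoin_mono ?_ (h5 i j)
      refine Set.union_subset_union_right _ ?_
      rw [Finset.coe_subset]
      exact Finset.subset_union_left
  · intro s hs
    have hinj : Function.Injective s := by
      intro x y hxy
      have := hs.injective
      exact this (by simp only [hxy])
    have := Fintype.card_le_of_injective s hinj
    rw [Fintype.card_fin, Fintype.card_fin] at this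
    omega

theorem prodM_mem {n w : ℕ} (L : List (Fin n × Matrix (Fin w) (Fin w) (Polynomial ℂ)))
    (i j : Fin w) : prodM L i j ∈ supported ℂ {k : Fin n | 0 < progReads L k} := by
  classical
  induction L generalizing i j with
  | nil =>
    have : prodM ([] : List (Fin n × Matrix (Fin w) (Fin w) (Polynomial ℂ))) = 1 := by simp [prodM]
    rw [this]
    exact one_mem' _ i j
  | cons l L ih =>
    have hp : prodM (l :: L) = l.2.map
        (fun p => Polynomial.aeval (X l.1 : MvPolynomial (Fin n) ℂ) p) * prodM L := by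
      simp [prodM]
    have hr : ∀ i, progReads (l :: L) i = progReads L i + if l.1 = i then 1 else 0 := by
      intro i
      simp [progReads, List.count_cons]
    rw [hp]
    refine mul_mem' _ _ _ ?_ ?_ i j
    · intro i j
      rw [Matrix.map_apply]
      refine aeval_mem' _ _ ?_ _
      rw [X_mem_supported]
      simp [hr]
    · intro i j
      refine supported_mono ?_ (ih i j)
      intro k hk
      simp only [Set.mem_ofPred_eq] at hk ⊢
      rw [hr]
      omega

theorem prog_vars {n w : ℕ} (L : List (Fin n × Matrix (Fin w) (Fin w) (Polynomial ℂ)))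
    (a b : Fin w → ℂ) (i : Fin n) (hi : i ∈ (progVal L a b).vars) : 0 < progReads L i := by
  have h : progVal L a b ∈ supported ℂ {k : Fin n | 0 < progReads L k} := by
    unfold progVal
    refine Subalgebra.sum_mem _ fun i _ => Subalgebra.sum_mem _ fun j _ => ?_
    exact Subalgebra.mul_mem _ (Subalgebra.mul_mem _ (Subalgebra.algebraMap_mem _ (a i))
      (prodM_mem L i j)) (Subalgebra.algebraMap_mem _ (b j))
  rw [mem_supported] at h
  exact h (Finset.mem_coe.2 hi)

end Pool.Agent.Helper16.KAL
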