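import Pool.Agent.Helper16.KAL.FmB

set_option autoImplicit false
set_option linter.unusedSectionVars false

/-!
# KAL-12: straight-line programs of formulas

Take `G_j` from `fm_bound` for node `j`. By strong induction on `j` every `h j` lies in
`adjoin (X '' B ∪ ⋃ j, range G_j)`, a family indexed by `Σ j, Fin (4 * L_j + 1)` of cardinality
`∑ j, (4 * L_j + 1) = 4 * (∑ i ∈ B, P.reads i + P.refs) + c` (`Finset.sum_comm`). Transport to
`Fin ρ` by a bijection. Then `aeval h F` lies in it too. With `M = ρ` the last condition of `KB` holds since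
a map `Fin (ρ + 1) → Fin ρ` is not injective, but algebraically independent families are
(`AlgebraicIndependent.injective`, `Fintype.card_le_of_injective`).
`slp_vars`: by strong induction with `fm_vars`, if `P.reads i = 0` then `i ∉ (h j).vars` for all `j`, and so
`i ∉ (aeval h F).vars` (e.g. `MvPolynomial.vars_bind₁`-like, or as in `fm_vars`; or
via `aeval h F ∈ adjoin (range h)`).
-/

namespace Pool.Agent.Helper16.KAL

open MvPolynomial Finset

theorem kb_slp {n c : ℕ} (P : SLP n c) (h : Fin c → MvPolynomial (Fin n) ℂ) (hv : P.Vals h)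
    (F : MvPolynomial (Fin c) ℂ) (B : Finset (Fin n)) :
    KB B (4 * (∑ i ∈ B, P.reads i + P.refs) + c) (aeval h F) := by
  classical
  choose G hG1 hG2 using fun j => fm_bound B h j (P.φ j) (P.below j)
  have hcard : Fintype.card (Σ j : Fin c,
      Fin (4 * (∑ i ∈ B, (P.φ j).reads i + (P.φ j).refs) + 1)) =
      4 * (∑ i ∈ B, P.reads i + P.refs) + c := by
    rw [Fintype.card_sigma]
    simp only [Fintype.card_fin, SLP.reads, SLP.refs]
    rw [Finset.sum_add_distrib, Finset.sum_comm (s := B), ← Finset.mul_sum,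
      Finset.sum_add_distrib]
    simp
  let e := Fintype.equivFinOfCardEq hcard
  refine ⟨4 * (∑ i ∈ B, P.reads i + P.refs) + c, fun k => G (e.symm k).1 (e.symm k).2,
    fun k => hG1 _ _, ?_, ?_⟩
  · set A := Algebra.adjoin ℂ ((fun i => (X i : MvPolynomial (Fin n) ℂ)) '' (B : Set (Fin n)) ∪
      Set.range (fun k => G (e.symm k).1 (e.symm k).2)) with hA
    have key : ∀ m : ℕ, ∀ j : Fin c, (j : ℕ) = m → h j ∈ A := by
      intro m
      induction m using Nat.strong_induction_on with
      | _ m ih =>
        intro j hj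
        rw [hv j]
        refine (Algebra.adjoin_le ?_ : Algebra.adjoin ℂ _ ≤ A) (hG2 j)
        rintro x ((⟨i, hi, rfl⟩ | ⟨k, hk, rfl⟩) | ⟨k, rfl⟩)
        · exact Algebra.subset_adjoin (Or.inl ⟨i, hi, rfl⟩)
        · refine ih (k : ℕ) ?_ k rfl
          rw [← hj]
          exact hk
        · have h4 : ∀ x : (Σ j : Fin c, Fin (4 * (∑ i ∈ B, (P.φ j).reads i + (P.φ j).refs) + 1)),
              G (e.symm (e x)).1 (e.symm (e x)).2 = G x.1 x.2 := by
            intro x
            exact congrArg (fun y : (Σ j : Fin c,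
              Fin (4 * (∑ i ∈ B, (P.φ j).reads i + (P.φ j).refs) + 1)) => G y.1 y.2)
              (e.symm_apply_apply x)
          exact Algebra.subset_adjoin (Or.inr ⟨e ⟨j, k⟩, h4 ⟨j, k⟩⟩)
    have h1 : aeval h F ∈ Algebra.adjoin ℂ (Set.range h) := by
      rw [Algebra.adjoin_range_eq_range_aeval]
      exact ⟨F, rfl⟩
    refine (Algebra.adjoin_le ?_ : Algebra.adjoin ℂ _ ≤ A) h1
    rintro x ⟨j, rfl⟩
    exact key _ j rfl
  · intro s hs
    have h1 := hs.injective
    have h2 : Function.Injective s := fun a b hab =>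
      h1 (congrArg (fun k => G (e.symm k).1 (e.symm k).2) hab)
    have h3 := Fintype.card_le_of_injective s h2
    simp only [Fintype.card_fin] at h3
    omega

theorem slp_vars {n c : ℕ} (P : SLP n c) (h : Fin c → MvPolynomial (Fin n) ℂ) (hv : P.Vals h)
    (F : MvPolynomial (Fin c) ℂ) (i : Fin n) (hi : i ∈ (aeval h F).vars) : 0 < P.reads i := by
  by_contra h0
  have h1 : P.reads i = 0 := by omega
  have h2 : ∀ j, (P.φ j).reads i = 0 := by
    intro j
    have h3 := (Finset.sum_eq_zero_iff (s := (univ : Finset (Fin c)))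
      (f := fun j => (P.φ j).reads i)).mp h1
    exact h3 j (mem_univ j)
  have key : ∀ m : ℕ, ∀ j : Fin c, (j : ℕ) = m → i ∉ (h j).vars := by
    intro m
    induction m using Nat.strong_induction_on with
    | _ m ih =>
      intro j hj
      rw [hv j]
      refine fm_vars h j (P.φ j) (P.below j) i (h2 j) ?_
      intro k hk
      refine ih (k : ℕ) ?_ k rfl
      rw [← hj]
      exact hk
  have hsup : ∀ p : MvPolynomial (Fin n) ℂ, i ∉ p.vars ↔
      p ∈ MvPolynomial.supported ℂ ({i}ᶜ : Set (Fin n)) := by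
    intro p
    rw [MvPolynomial.mem_supported]
    constructor
    · intro hp x hx
      simp only [Set.mem_compl_iff, Set.mem_singleton_iff]
      rintro rfl
      exact hp hx
    · intro hp hx
      exact hp hx rfl
  refine (hsup _).mpr ?_ hi
  have h1 : aeval h F ∈ Algebra.adjoin ℂ (Set.range h) := by
    rw [Algebra.adjoin_range_eq_range_aeval]
    exact ⟨F, rfl⟩
  refine (Algebra.adjoin_le ?_ : Algebra.adjoin ℂ _ ≤ MvPolynomial.supported ℂ _) h1
  rintro x ⟨j, rfl⟩
  exact (hsup _).mp (key _ j rfl)

end Pool.Agent.Helper16.KAL
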