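import Pool.Agent.Helper16.KAL.Hyb
import Pool.Agent.Helper16.KAL.Hit
import Pool.Agent.Helper16.KAL.Cut
import Pool.Agent.Helper16.KAL.SlpB
import Pool.Agent.Helper16.KAL.ProgB
import Pool.Agent.Helper16.KAL.DetB

set_option autoImplicit false
set_option linter.unusedSectionVars false

/-!
# Project KAL: the class `Kal` and its members
-/

namespace Pool.Agent.Helper16.KAL

open MvPolynomial Finset

/-- The hitting set works for the class `Kal`. -/
theorem kal_hits {n q t d : ℕ} {f : MvPolynomial (Fin n) ℂ} (hK : f ∈ Kal n q t) (hf : f ≠ 0)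
    (hd : f.totalDegree ≤ d) : ∃ a ∈ hit n q t d, eval (fun i => ((a i : ℤ) : ℂ)) f ≠ 0 := by
  obtain ⟨c, hc⟩ := hK
  exact hit_hits f hd c (hybrid f hf c hc)

/-- Kalorkoti bounds for all light sets of variables. -/
theorem kal_of_weights {n q t : ℕ} (f : MvPolynomial (Fin n) ℂ) (ω : Fin n → ℕ) (σ : ℕ)
    (hσ : 0 < σ) (ht : 2 * ((∑ i, min (ω i) σ) / σ) ≤ t)
    (hK : ∀ B ⊆ f.vars, ∑ i ∈ B, ω i < σ → ∃ ρ, KB B ρ f ∧ ρ + B.card ≤ q) : f ∈ Kal n q t := by
  obtain ⟨c, hc⟩ := exists_cuts ω σ hσ ht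
  refine ⟨c, fun b => ?_⟩
  rcases hc f.vars b with h | h
  · exact Or.inl h
  · exact Or.inr (hK _ (filter_subset _ _) h)

theorem card_le_sum {n : ℕ} (B : Finset (Fin n)) (r : Fin n → ℕ) (h : ∀ i ∈ B, 0 < r i) :
    B.card ≤ ∑ i ∈ B, r i := by
  rw [card_eq_sum_ones]
  exact sum_le_sum fun i hi => h i hi

/-- Straight-line programs of formulas. -/
theorem slp_kal {n c q t σ : ℕ} (P : SLP n c) (h : Fin c → MvPolynomial (Fin n) ℂ)
    (hv : P.Vals h) (F : MvPolynomial (Fin c) ℂ) (hσ : 0 < σ)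
    (ht : 2 * ((∑ i, min (5 * P.reads i) σ) / σ) ≤ t) (hq : σ + 4 * P.refs + c ≤ q + 1) :
    aeval h F ∈ Kal n q t := by
  refine kal_of_weights _ (fun i => 5 * P.reads i) σ hσ ht fun B hB hw => ?_
  refine ⟨_, kb_slp P h hv F B, ?_⟩
  have h1 := card_le_sum B P.reads (fun i hi => slp_vars P h hv F i (hB hi))
  rw [← mul_sum] at hw
  omega

/-- Programs of width `w`. -/
theorem prog_kal {n w q t σ : ℕ} (L : List (Fin n × Matrix (Fin w) (Fin w) (Polynomial ℂ)))
    (a b : Fin w → ℂ) (hσ : 0 < σ)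
    (ht : 2 * ((∑ i, min ((w ^ 2 + 1) * progReads L i) σ) / σ) ≤ t) (hq : σ + w ^ 2 ≤ q + 1) :
    progVal L a b ∈ Kal n q t := by
  refine kal_of_weights _ (fun i => (w ^ 2 + 1) * progReads L i) σ hσ ht fun B hB hw => ?_
  refine ⟨_, kb_prog L a b B, ?_⟩
  have h1 := card_le_sum B (progReads L) (fun i hi => prog_vars L a b i (hB hi))
  rw [← mul_sum] at hw
  have h3 : (w ^ 2 + 1) * ∑ i ∈ B, progReads L i + w ^ 2 =
      w ^ 2 * (∑ i ∈ B, progReads L i + 1) + ∑ i ∈ B, progReads L i := by ring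
  omega

/-- Determinants. -/
theorem det_kal {n N s q t σ : ℕ} (A : Matrix (Fin N) (Fin N) ℂ) (U : Matrix (Fin N) (Fin s) ℂ)
    (V : Matrix (Fin s) (Fin N) ℂ) (v : Fin s → Fin n) (p : Fin s → Polynomial ℂ) (hσ : 0 < σ)
    (ht : 2 * ((∑ i, min (univ.filter (fun k => v k = i)).card σ) / σ) ≤ t) (hq : σ ^ 2 ≤ q) :
    detVal A U V v p ∈ Kal n q t := by
  refine kal_of_weights _ (fun i => (univ.filter (fun k => v k = i)).card) σ hσ ht
    fun B hB hw => ?_
  refine ⟨_, kb_det A U V v p B, ?_⟩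
  have h1 := card_le_sum B (fun i => (univ.filter (fun k => v k = i)).card)
    (fun i hi => det_vars A U V v p i (hB hi))
  have h2 : (univ.filter (fun k => v k ∈ B)).card =
      ∑ i ∈ B, (univ.filter (fun k => v k = i)).card := by
    rw [card_eq_sum_card_fiberwise (f := v) (t := B)]
    · refine sum_congr rfl fun i hi => ?_
      congr 1
      ext k
      simp only [mem_filter, mem_univ, true_and]
      constructor
      · exact fun h => h.2
      · intro h
        exact ⟨h ▸ hi, h⟩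
    · intro k hk
      simpa using hk
  rw [h2]
  set r := ∑ i ∈ B, (univ.filter (fun k => v k = i)).card with hr
  have h3 : r + 1 ≤ σ := hw
  have h4 : (r + 1) ^ 2 ≤ σ ^ 2 := Nat.pow_le_pow_left h3 2
  have h5 : (r + 1) ^ 2 = r ^ 2 + r + r + 1 := by ring
  omega

/-- Choice of the parameters. -/
theorem sqrt_choice (W : ℕ) : 2 * (W / (Nat.sqrt (2 * W) + 1)) ≤ Nat.sqrt (2 * W) + 1 := by
  set r := Nat.sqrt (2 * W) + 1 with hr
  have h1 : 2 * W < r * r := Nat.lt_succ_sqrt (2 * W)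
  have h2 : W / r * r ≤ W := Nat.div_mul_le_self W r
  by_contra hcon
  push Not at hcon
  have h3 : r * r < 2 * (W / r) * r := Nat.mul_lt_mul_of_pos_right hcon (by omega)
  have h4 : 2 * (W / r) * r = 2 * (W / r * r) := by ring
  omega

theorem sum_min_le {n : ℕ} (ω : Fin n → ℕ) (σ : ℕ) : ∑ i, min (ω i) σ ≤ ∑ i, ω i :=
  sum_le_sum fun _ _ => min_le_left _ _

/-- A straight-line program of formulas with `s` variable leaves. -/
theorem slp_kal_sqrt {n c s : ℕ} (P : SLP n c) (h : Fin c → MvPolynomial (Fin n) ℂ)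
    (hv : P.Vals h) (F : MvPolynomial (Fin c) ℂ) (hs : ∑ i, P.reads i ≤ s) :
    aeval h F ∈ Kal n (Nat.sqrt (10 * s) + 4 * P.refs + c) (Nat.sqrt (10 * s) + 1) := by
  apply slp_kal (σ := Nat.sqrt (10 * s) + 1) P h hv F (Nat.succ_pos _)
  · have h1 := sqrt_choice (5 * s)
    have e : 2 * (5 * s) = 10 * s := by ring
    rw [e] at h1
    refine le_trans ?_ h1
    apply Nat.mul_le_mul_left
    apply Nat.div_le_div_right
    refine (sum_min_le _ _).trans ?_
    rw [← mul_sum]
    exact Nat.mul_le_mul_left _ hs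
  · omega

/-- A program of width `w` with `s` layers. -/
theorem prog_kal_sqrt {n w : ℕ} (L : List (Fin n × Matrix (Fin w) (Fin w) (Polynomial ℂ)))
    (a b : Fin w → ℂ) :
    progVal L a b ∈ Kal n (Nat.sqrt (2 * (w ^ 2 + 1) * L.length) + w ^ 2)
      (Nat.sqrt (2 * (w ^ 2 + 1) * L.length) + 1) := by
  apply prog_kal (σ := Nat.sqrt (2 * (w ^ 2 + 1) * L.length) + 1) L a b (Nat.succ_pos _)
  · have h1 := sqrt_choice ((w ^ 2 + 1) * L.length)
    have e : 2 * ((w ^ 2 + 1) * L.length) = 2 * (w ^ 2 + 1) * L.length := by ring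
    rw [e] at h1
    refine le_trans ?_ h1
    apply Nat.mul_le_mul_left
    apply Nat.div_le_div_right
    refine (sum_min_le _ _).trans ?_
    rw [← mul_sum]
    apply Nat.mul_le_mul_left
    have h2 : ∑ i, progReads L i = (L.map Prod.fst).length := by
      have h3 := Multiset.sum_count_eq_card (s := (univ : Finset (Fin n)))
        (m := ((L.map Prod.fst : List (Fin n)) : Multiset (Fin n))) (fun _ _ => mem_univ _)
      rw [Multiset.coe_card] at h3
      rw [← h3]
      apply sum_congr rfl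
      intro i _
      unfold progReads
      rw [Multiset.coe_count]
    rw [h2, List.length_map]
  · omega

/-- A determinant with `s` entries, for every cutting parameter. -/
theorem det_kal_cut {n N s σ : ℕ} (A : Matrix (Fin N) (Fin N) ℂ) (U : Matrix (Fin N) (Fin s) ℂ)
    (V : Matrix (Fin s) (Fin N) ℂ) (v : Fin s → Fin n) (p : Fin s → Polynomial ℂ) (hσ : 0 < σ) :
    detVal A U V v p ∈ Kal n (σ ^ 2) (2 * (s / σ)) := by
  apply det_kal (σ := σ) A U V v p hσ _ le_rfl
  apply Nat.mul_le_mul_left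
  apply Nat.div_le_div_right
  refine (sum_min_le _ _).trans (le_of_eq ?_)
  have h := card_eq_sum_card_fiberwise (f := v) (s := (univ : Finset (Fin s)))
    (t := (univ : Finset (Fin n))) (fun k _ => mem_univ _)
  rw [card_univ, Fintype.card_fin] at h
  exact h.symm

end Pool.Agent.Helper16.KAL
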